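import Pool.Agent.Work.MP_0e9e72_an.SCVA

open Metric Set Filter Topology
open scoped Real

namespace Pool.Agent.KRFLj

/-- A contour integral of a holomorphic function depends holomorphically on a translation. -/
theorem differentiableOn_circle {E : Type} [NormedAddCommGroup E] [NormedSpace ℂ E]
    [FiniteDimensional ℂ E] {U A : Set E} (hU : IsOpen U) (hA : IsOpen A) {Φ : E → ℂ}
    (hΦ : DifferentiableOn ℂ Φ U) {ρ : ℝ} (hρ : 0 ≤ ρ) {v : E}
    (h : ∀ z ∈ A, ∀ t : ℂ, ‖t‖ = ρ → z + t • v ∈ U) :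
    DifferentiableOn ℂ (fun z => ∮ t in C(0, ρ), Φ (z + t • v)) A := by
  intro z₀ hz₀
  have hpr : ProperSpace E := FiniteDimensional.proper ℂ E
  have hn : ∀ θ : ℝ, ‖circleMap 0 ρ θ‖ = ρ := fun θ => by
    rw [norm_circleMap_zero, abs_of_nonneg hρ]
  obtain ⟨ε, hε, hεA⟩ : ∃ ε > 0, closedBall z₀ ε ⊆ A := by
    obtain ⟨ε, hε, h1⟩ := Metric.isOpen_iff.1 hA z₀ hz₀
    exact ⟨ε / 2, by positivity, (closedBall_subset_ball (by linarith)).trans h1⟩
  have hΦc : ContDiffOn ℂ 1 Φ U := SCV.contDiffOn_of_differentiableOn hU hΦ (n := 1)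
  have hDc : ContinuousOn (fderiv ℂ Φ) U := hΦc.continuousOn_fderiv_of_isOpen hU le_rfl
  have hmap : Continuous (fun p : E × ℝ => p.1 + circleMap 0 ρ p.2 • v) := by fun_prop
  set K : Set E := (fun p : E × ℝ => p.1 + circleMap 0 ρ p.2 • v) ''
    (closedBall z₀ ε ×ˢ Icc 0 (2 * π)) with hK
  have hKc : IsCompact K := ((isCompact_closedBall z₀ ε).prod isCompact_Icc).image hmap
  have hKU : K ⊆ U := by
    rintro _ ⟨⟨z, θ⟩, ⟨hz, -⟩, rfl⟩
    exact h z (hεA hz) _ (hn θ)
  obtain ⟨C, hC⟩ := hKc.exists_bound_of_continuousOn (hDc.mono hKU)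
  have hcF : ∀ z ∈ A, Continuous (fun θ : ℝ => deriv (circleMap 0 ρ) θ •
      Φ (z + circleMap 0 ρ θ • v)) := by
    intro z hz
    have h1 : Continuous (fun θ : ℝ => Φ (z + circleMap 0 ρ θ • v)) :=
      hΦ.continuousOn.comp_continuous (by fun_prop) (fun θ => h z hz _ (hn θ))
    have h2 : Continuous (fun θ : ℝ => deriv (circleMap 0 ρ) θ) := by
      simp only [deriv_circleMap]
      fun_prop
    exact h2.smul h1
  have hcF' : ∀ z ∈ A, Continuous (fun θ : ℝ => deriv (circleMap 0 ρ) θ •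
      fderiv ℂ Φ (z + circleMap 0 ρ θ • v)) := by
    intro z hz
    have h1 : Continuous (fun θ : ℝ => fderiv ℂ Φ (z + circleMap 0 ρ θ • v)) :=
      hDc.comp_continuous (by fun_prop) (fun θ => h z hz _ (hn θ))
    have h2 : Continuous (fun θ : ℝ => deriv (circleMap 0 ρ) θ) := by
      simp only [deriv_circleMap]
      fun_prop
    exact h2.smul h1
  have key : HasFDerivAt (fun z => ∫ θ in (0 : ℝ)..2 * π, deriv (circleMap 0 ρ) θ •
      Φ (z + circleMap 0 ρ θ • v))
      (∫ θ in (0 : ℝ)..2 * π, deriv (circleMap 0 ρ) θ • fderiv ℂ Φ (z₀ + circleMap 0 ρ θ • v))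
      z₀ := by
    refine intervalIntegral.hasFDerivAt_integral_of_dominated_of_fderiv_le
      (F' := fun z θ => deriv (circleMap 0 ρ) θ • fderiv ℂ Φ (z + circleMap 0 ρ θ • v))
      (bound := fun _ => ρ * C) (ball_mem_nhds z₀ hε) ?_ ?_ ?_ ?_ ?_ ?_
    · filter_upwards [ball_mem_nhds z₀ hε] with z hz
      exact (hcF z (hεA (ball_subset_closedBall hz))).aestronglyMeasurable
    · exact (hcF z₀ hz₀).intervalIntegrable _ _
    · exact (hcF' z₀ hz₀).aestronglyMeasurable
    · refine Eventually.of_forall fun θ hθ z hz => ?_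
      rw [uIoc_of_le Real.two_pi_pos.le] at hθ
      rw [norm_smul]
      have h1 : ‖deriv (circleMap 0 ρ) θ‖ = ρ := by
        rw [deriv_circleMap, norm_mul, hn, Complex.norm_I, mul_one]
      rw [h1]
      exact mul_le_mul_of_nonneg_left (hC _ ⟨(z, θ), ⟨ball_subset_closedBall hz,
        Ioc_subset_Icc_self hθ⟩, rfl⟩) hρ
    · exact intervalIntegrable_const
    · refine Eventually.of_forall fun θ hθ z hz => ?_
      have h1 : HasFDerivAt Φ (fderiv ℂ Φ (z + circleMap 0 ρ θ • v)) (z + circleMap 0 ρ θ • v) :=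
        (hΦ.differentiableAt (hU.mem_nhds
          (h z (hεA (ball_subset_closedBall hz)) _ (hn θ)))).hasFDerivAt
      have h2 : HasFDerivAt (fun z => Φ (z + circleMap 0 ρ θ • v))
          (fderiv ℂ Φ (z + circleMap 0 ρ θ • v)) z :=
        (hasFDerivAt_comp_add_right (circleMap 0 ρ θ • v)).2 h1
      exact h2.const_smul (deriv (circleMap 0 ρ) θ)
  exact key.differentiableAt.differentiableWithinAt

/-- A family of naturals whose multiples by a constant depend continuously on the point is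
constant on connected sets. -/
theorem const_nat {E : Type} [TopologicalSpace E] {A : Set E} (hA : IsPreconnected A)
    {d : E → ℕ} {J : E → ℂ} (hJ : ContinuousOn J A)
    (h : ∀ z ∈ A, J z = 2 * π * Complex.I * d z) {z z' : E} (hz : z ∈ A) (hz' : z' ∈ A) :
    d z = d z' := by
  have h1 : ContinuousOn (fun z => ((d z : ℕ) : ℝ)) A := by
    have h2 : ContinuousOn (fun z => (J z / (2 * π * Complex.I)).re) A :=
      Complex.continuous_re.comp_continuousOn (hJ.div_const _)
    refine h2.congr fun z hz => ?_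
    have h3 : J z / (2 * π * Complex.I) = ((d z : ℝ) : ℂ) := by
      rw [h z hz, mul_div_cancel_left₀ _ Complex.two_pi_I_ne_zero]
      simp
    simp only [h3, Complex.ofReal_re]
  have h4 : ContinuousOn d A :=
    (Nat.isClosedEmbedding_coe_real.isInducing.continuousOn_iff).2 h1
  exact hA.constant h4 hz hz'

end Pool.Agent.KRFLj
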