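import Mathlib

/-!
# Multivalued holomorphic maps
-/

open Metric Set Filter Topology

namespace Pool.Agent.KRFLj

/-- `g z i`, `i < D`, is a `D`-valued holomorphic map from the ball of radius `δ` of `E` to the ball
of radius `R` of `V`: the sums `∑ h (g z i)` are holomorphic in `z` for all holomorphic functions
`h` on the ball of radius `2 R`. -/
structure Sheet {E V : Type} [NormedAddCommGroup E] [NormedSpace ℂ E] [NormedAddCommGroup V]
    [NormedSpace ℂ V] (R δ : ℝ) {D : ℕ} (g : E → Fin D → V) : Prop where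
  mem : ∀ z ∈ ball (0 : E) δ, ∀ i, ‖g z i‖ ≤ R
  trace : ∀ h : V → ℂ, DifferentiableOn ℂ h (ball 0 (2 * R)) →
    DifferentiableOn ℂ (fun z => ∑ i, h (g z i)) (ball 0 δ)

end Pool.Agent.KRFLj
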