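import Pool.Agent.Work.MP_a2bf38_gt.Lj.Defs

/-!
# Newton's identities for multivalued holomorphic maps
-/

open Metric Set Filter Topology

namespace Pool.Agent.KRFLj

variable {E V : Type} [NormedAddCommGroup E] [NormedSpace ℂ E] [NormedAddCommGroup V]
  [NormedSpace ℂ V]

variable {R δ : ℝ} {D : ℕ} {g : E → Fin D → V}

lemma aeval_esymm' {σ : Type} [Fintype σ] (k : ℕ) (x : σ → ℂ) :
    MvPolynomial.aeval x (MvPolynomial.esymm σ ℂ k) =
      ∑ s ∈ Finset.powersetCard k Finset.univ, ∏ i ∈ s, x i := by
  rw [MvPolynomial.esymm, map_sum]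
  refine Finset.sum_congr rfl fun s _ => ?_
  rw [map_prod]
  simp

lemma aeval_psum' {σ : Type} [Fintype σ] (k : ℕ) (x : σ → ℂ) :
    MvPolynomial.aeval x (MvPolynomial.psum σ ℂ k) = ∑ i, x i ^ k := by
  rw [MvPolynomial.psum, map_sum]
  refine Finset.sum_congr rfl fun s _ => ?_
  simp

/-- Newton's identities -/
theorem Sheet.esymm (hg : Sheet R δ g) {h : V → ℂ} (hh : DifferentiableOn ℂ h (ball 0 (2 * R)))
    (k : ℕ) : DifferentiableOn ℂ
      (fun z => ∑ s ∈ Finset.powersetCard k Finset.univ, ∏ i ∈ s, h (g z i)) (ball 0 δ) := by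
  have key : ∀ k : ℕ, DifferentiableOn ℂ
      (fun z => MvPolynomial.aeval (fun i => h (g z i)) (MvPolynomial.esymm (Fin D) ℂ k))
      (ball 0 δ) := by
    intro k
    induction k using Nat.strong_induction_on with
    | _ k ih =>
      rcases Nat.eq_zero_or_pos k with rfl | hk
      · simp only [MvPolynomial.esymm_zero, map_one]
        exact differentiableOn_const _
      · have hid : ∀ z, MvPolynomial.aeval (fun i => h (g z i)) (MvPolynomial.esymm (Fin D) ℂ k) =
            (k : ℂ)⁻¹ * ((-1) ^ (k + 1) *
              ∑ a ∈ Finset.HasAntidiagonal.antidiagonal k with a.1 < k, (-1) ^ a.1 *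
                MvPolynomial.aeval (fun i => h (g z i)) (MvPolynomial.esymm (Fin D) ℂ a.1) *
                ∑ i, h (g z i) ^ a.2) := by
          intro z
          have h1 := congrArg (MvPolynomial.aeval (fun i => h (g z i)))
            (MvPolynomial.mul_esymm_eq_sum (Fin D) ℂ k)
          simp only [map_mul, map_natCast, map_sum, map_pow, map_neg, map_one, aeval_psum'] at h1
          rw [← h1, ← mul_assoc, inv_mul_cancel₀ (by exact_mod_cast hk.ne'), one_mul]
        have e : (fun z => MvPolynomial.aeval (fun i => h (g z i))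
            (MvPolynomial.esymm (Fin D) ℂ k)) = fun z =>
            (k : ℂ)⁻¹ * ((-1) ^ (k + 1) *
              ∑ a ∈ Finset.HasAntidiagonal.antidiagonal k with a.1 < k, (-1) ^ a.1 *
                MvPolynomial.aeval (fun i => h (g z i)) (MvPolynomial.esymm (Fin D) ℂ a.1) *
                ∑ i, h (g z i) ^ a.2) := funext hid
        rw [e]
        refine DifferentiableOn.const_mul (DifferentiableOn.const_mul ?_ _) _
        refine DifferentiableOn.fun_sum fun a ha => ?_
        have ha' := (Finset.mem_filter.1 ha).2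
        exact ((ih a.1 ha').const_mul _).mul (hg.trace (fun v => h v ^ a.2) (hh.pow a.2))
  have := key k
  simpa only [aeval_esymm'] using this

end Pool.Agent.KRFLj
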