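import Pool.Agent.Work.MP_a2bf38_gt.Lj.Esymm

/-!
# Multivalued holomorphic maps are Hölder continuous
-/

open Metric Set Filter Topology

namespace Pool.Agent.KRFLj

variable {E V : Type} [NormedAddCommGroup E] [NormedSpace ℂ E] [NormedAddCommGroup V]
  [NormedSpace ℂ V]

variable {R δ : ℝ} {D : ℕ} {g : E → Fin D → V}

/-- Schwarz lemma on lines -/
lemma lip_of_bdd {F : E → ℂ} {M : ℝ} (hδ : 0 < δ) (hF : DifferentiableOn ℂ F (ball 0 δ))
    (hM : ∀ z ∈ ball (0 : E) δ, ‖F z‖ ≤ M) {z z₁ : E} (hz : z ∈ ball (0 : E) (δ / 2))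
    (hz₁ : z₁ ∈ ball (0 : E) (δ / 2)) :
    ‖F z₁ - F z‖ ≤ (2 * M + 1) * 2 / δ * ‖z - z₁‖ := by
  have hM0 : 0 ≤ M := (norm_nonneg _).trans (hM 0 (mem_ball_self hδ))
  rw [mem_ball_zero_iff] at hz hz₁
  have hin : ∀ t : ℂ, ‖t‖ * ‖z₁ - z‖ < δ / 2 → z + t • (z₁ - z) ∈ ball (0 : E) δ := by
    intro t ht
    rw [mem_ball_zero_iff]
    calc ‖z + t • (z₁ - z)‖ ≤ ‖z‖ + ‖t • (z₁ - z)‖ := norm_add_le _ _
      _ = ‖z‖ + ‖t‖ * ‖z₁ - z‖ := by rw [norm_smul]
      _ < δ := by linarith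
  have hr : ‖z₁ - z‖ = ‖z - z₁‖ := norm_sub_rev _ _
  rcases lt_or_ge ‖z₁ - z‖ (δ / 2) with h | h
  · rcases eq_or_lt_of_le (norm_nonneg (z₁ - z)) with h0 | h0
    · have : z₁ = z := sub_eq_zero.1 (norm_eq_zero.1 h0.symm)
      subst this
      simp
    · set r := ‖z₁ - z‖ with hrdef
      have hR1 : 0 < δ / 2 / r := by positivity
      have hd : DifferentiableOn ℂ (fun t : ℂ => F (z + t • (z₁ - z))) (ball 0 (δ / 2 / r)) := by
        refine hF.comp (f := fun t : ℂ => z + t • (z₁ - z)) ?_ ?_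
        · exact ((differentiable_id.smul_const _).const_add _).differentiableOn
        · intro t ht
          rw [mem_ball_zero_iff, lt_div_iff₀ h0] at ht
          exact hin t ht
      have hmaps : MapsTo (fun t : ℂ => F (z + t • (z₁ - z))) (ball 0 (δ / 2 / r))
          (closedBall ((fun t : ℂ => F (z + t • (z₁ - z))) 0) (2 * M + 1)) := by
        intro t ht
        rw [mem_ball_zero_iff, lt_div_iff₀ h0] at ht
        rw [mem_closedBall_iff_norm]
        have h1 := hM _ (hin t ht)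
        have h2 := hM _ (hin 0 (by simpa using half_pos hδ))
        calc ‖F (z + t • (z₁ - z)) - F (z + (0 : ℂ) • (z₁ - z))‖
            ≤ ‖F (z + t • (z₁ - z))‖ + ‖F (z + (0 : ℂ) • (z₁ - z))‖ := norm_sub_le _ _
          _ ≤ 2 * M + 1 := by linarith
      have h1in : (1 : ℂ) ∈ ball (0 : ℂ) (δ / 2 / r) := by
        rw [mem_ball_zero_iff, norm_one, lt_div_iff₀ h0, one_mul]
        exact h
      have := Complex.dist_le_div_mul_dist_of_mapsTo_ball hd hmaps h1in
      rw [dist_eq_norm, dist_zero_right, norm_one, mul_one] at this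
      simp only [one_smul, zero_smul, add_zero, add_sub_cancel] at this
      refine this.trans (le_of_eq ?_)
      rw [← hr]
      field_simp
  · have h2 := hM z (by rw [mem_ball_zero_iff]; linarith)
    have h3 := hM z₁ (by rw [mem_ball_zero_iff]; linarith)
    calc ‖F z₁ - F z‖ ≤ ‖F z₁‖ + ‖F z‖ := norm_sub_le _ _
      _ ≤ 2 * M + 1 := by linarith
      _ = (2 * M + 1) * 2 / δ * (δ / 2) := by field_simp
      _ ≤ (2 * M + 1) * 2 / δ * ‖z - z₁‖ := by
          rw [← hr]
          exact mul_le_mul_of_nonneg_left h (by positivity)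

lemma exists_root_le {a : Fin D → ℝ} (hD : 0 < D) (ha : ∀ i, 0 ≤ a i) {c : ℝ}
    (hc : ∏ i, a i ≤ c) : ∃ i, a i ≤ c ^ (1 / (D : ℝ)) := by
  obtain ⟨i, -, hi⟩ := Finset.exists_min_image Finset.univ a ⟨⟨0, hD⟩, Finset.mem_univ _⟩
  refine ⟨i, ?_⟩
  have h1 : a i ^ D ≤ c := by
    calc a i ^ D = ∏ _j : Fin D, a i := by simp
      _ ≤ ∏ j, a j := Finset.prod_le_prod (fun _ _ => ha i) fun j hj => hi j hj
      _ ≤ c := hc
  calc a i = (a i ^ D) ^ ((D : ℝ)⁻¹) := (Real.pow_rpow_inv_natCast (ha i) hD.ne').symm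
    _ ≤ c ^ ((D : ℝ)⁻¹) := Real.rpow_le_rpow (by positivity [ha i]) h1 (by positivity)
    _ = c ^ (1 / (D : ℝ)) := by rw [one_div]

/-- one linear form -/
lemma Sheet.lin_holder (hR : 0 < R) (hδ : 0 < δ) (hD : 0 < D) (hg : Sheet R δ g)
    (l : V →L[ℂ] ℂ) : ∃ C, 0 ≤ C ∧ ∀ z ∈ ball (0 : E) (δ / 2), ∀ z₁ ∈ ball (0 : E) (δ / 2),
      ∀ i, ∃ i', ‖l (g z i - g z₁ i')‖ ≤ C * ‖z - z₁‖ ^ (1 / (D : ℝ)) := by
  set M : ℝ := (‖l‖ * R + ‖l‖ * R) ^ D with hM
  refine ⟨((2 * M + 1) * 2 / δ) ^ (1 / (D : ℝ)), by positivity, ?_⟩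
  intro z hz z₁ hz₁ i
  have hzδ : z ∈ ball (0 : E) δ := ball_subset_ball (by linarith) hz
  have hz₁δ : z₁ ∈ ball (0 : E) δ := ball_subset_ball (by linarith) hz₁
  have hle : ∀ w ∈ ball (0 : E) δ, ∀ j, ‖l (g w j)‖ ≤ ‖l‖ * R := fun w hw j =>
    (l.le_opNorm _).trans (mul_le_mul_of_nonneg_left (hg.mem w hw j) (norm_nonneg _))
  have hF : DifferentiableOn ℂ (fun w => ∏ j, (l (g z i) - l (g w j))) (ball 0 δ) := by
    have := hg.esymm (h := fun v => l (g z i) - l v)
      ((differentiable_const _).sub l.differentiable).differentiableOn D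
    have e : Finset.powersetCard D (Finset.univ : Finset (Fin D)) = {Finset.univ} := by
      have := Finset.powersetCard_self (Finset.univ : Finset (Fin D))
      rwa [Finset.card_univ, Fintype.card_fin] at this
    simpa only [e, Finset.sum_singleton] using this
  have hMb : ∀ w ∈ ball (0 : E) δ, ‖∏ j, (l (g z i) - l (g w j))‖ ≤ M := by
    intro w hw
    rw [norm_prod]
    calc ∏ j, ‖l (g z i) - l (g w j)‖ ≤ ∏ _j : Fin D, (‖l‖ * R + ‖l‖ * R) :=
          Finset.prod_le_prod (fun _ _ => norm_nonneg _) fun j _ =>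
            (norm_sub_le _ _).trans (add_le_add (hle z hzδ i) (hle w hw j))
      _ = M := by simp [hM]
  have h1 := lip_of_bdd hδ hF hMb hz hz₁
  have h0 : ∏ j, (l (g z i) - l (g z j)) = 0 :=
    Finset.prod_eq_zero (Finset.mem_univ i) (sub_self _)
  simp only [h0, sub_zero] at h1
  rw [norm_prod] at h1
  obtain ⟨i', hi'⟩ := exists_root_le hD (fun j => norm_nonneg (l (g z i) - l (g z₁ j))) h1
  refine ⟨i', ?_⟩
  rw [map_sub]
  refine hi'.trans (le_of_eq ?_)
  rw [Real.mul_rpow (by positivity) (norm_nonneg _)]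

/-- finitely many linear forms, any `m` of which determine the vector -/
lemma exists_forms [FiniteDimensional ℂ V] (D : ℕ) : ∃ (n : ℕ) (l : Fin n → V →L[ℂ] ℂ)
    (m : ℕ) (C : ℝ), D * m < n ∧ 0 ≤ C ∧ ∀ T : Finset (Fin n), m < T.card → ∀ v : V, ∀ s : ℝ,
      (∀ t ∈ T, ‖l t v‖ ≤ s) → ‖v‖ ≤ C * s := by
  set m := Module.finrank ℂ V with hm
  let b := Module.finBasis ℂ V
  let lam : Fin (D * m + 1) → V →ₗ[ℂ] ℂ := fun t => ∑ j : Fin m, ((t : ℕ) : ℂ) ^ (j : ℕ) • b.coord j
  have hinj : ∀ T : Finset (Fin (D * m + 1)), m < T.card → ∃ C : ℝ, 0 ≤ C ∧ ∀ v : V, ∀ s : ℝ,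
      (∀ t ∈ T, ‖lam t v‖ ≤ s) → ‖v‖ ≤ C * s := by
    intro T hT
    let L : V →ₗ[ℂ] (T → ℂ) := LinearMap.pi fun t => lam t
    have hker : LinearMap.ker L = ⊥ := by
      rw [LinearMap.ker_eq_bot']
      intro v hv
      let P : Polynomial ℂ := ∑ j : Fin m, Polynomial.monomial (j : ℕ) (b.coord j v)
      have hev : ∀ x : ℂ, P.eval x = ∑ j : Fin m, x ^ (j : ℕ) * b.coord j v := by
        intro x
        simp only [P, Polynomial.eval_finsetSum, Polynomial.eval_monomial]
        exact Finset.sum_congr rfl fun j _ => mul_comm _ _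
      have hP0 : P = 0 := by
        by_contra hP
        have hdeg : P.natDegree ≤ m := by
          refine Polynomial.natDegree_sum_le_of_forall_le _ _ fun j _ => ?_
          exact (Polynomial.natDegree_monomial_le _).trans j.2.le
        have hroots : (T.image fun t : Fin (D * m + 1) => ((t : ℕ) : ℂ)) ⊆ P.roots.toFinset := by
          intro x hx
          obtain ⟨t, ht, rfl⟩ := Finset.mem_image.1 hx
          rw [Multiset.mem_toFinset, Polynomial.mem_roots hP, Polynomial.IsRoot.def, hev]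
          have := congrFun hv ⟨t, ht⟩
          simpa [L, lam, LinearMap.sum_apply] using this
        have hcard := Finset.card_le_card hroots
        rw [Finset.card_image_of_injective _ (by
          intro a c hac
          have hac' : ((a : ℕ) : ℂ) = ((c : ℕ) : ℂ) := hac
          exact Fin.ext (by exact_mod_cast hac'))] at hcard
        have h2 := (Multiset.toFinset_card_le P.roots).trans (Polynomial.card_roots' P)
        omega
      have hc : ∀ j : Fin m, b.coord j v = 0 := by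
        intro j
        have := congrArg (fun Q : Polynomial ℂ => Q.coeff (j : ℕ)) hP0
        simp only [P, Polynomial.finsetSum_coeff, Polynomial.coeff_monomial,
          Polynomial.coeff_zero] at this
        rw [Finset.sum_eq_single j] at this
        · simpa using this
        · intro j' _ hj'
          rw [if_neg]
          intro h
          exact hj' (Fin.ext h)
        · simp
      exact b.ext_elem (by intro j; simpa using hc j)
    obtain ⟨K, hK, hanti⟩ := L.exists_antilipschitzWith hker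
    refine ⟨K, K.2, fun v s hs => ?_⟩
    have h1 := hanti.le_mul_dist v 0
    rw [dist_zero_right, map_zero, dist_zero_right] at h1
    refine h1.trans (mul_le_mul_of_nonneg_left ?_ K.2)
    have hne : T.Nonempty := Finset.card_pos.1 (by omega)
    obtain ⟨t₀, ht₀⟩ := hne
    rw [pi_norm_le_iff_of_nonneg ((norm_nonneg _).trans (hs t₀ ht₀))]
    intro t
    exact hs t.1 t.2
  choose! C hC0 hC using hinj
  refine ⟨D * m + 1, fun t => LinearMap.toContinuousLinearMap (lam t), m,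
    ∑ T : Finset (Fin (D * m + 1)), |C T|, by omega, Finset.sum_nonneg fun _ _ => abs_nonneg _, ?_⟩
  intro T hT v s hs
  have h1 := hC T hT v s (fun t ht => by simpa using hs t ht)
  have hne : T.Nonempty := Finset.card_pos.1 (by omega)
  obtain ⟨t₀, ht₀⟩ := hne
  have hs0 : 0 ≤ s := (norm_nonneg _).trans (hs t₀ ht₀)
  refine h1.trans (mul_le_mul_of_nonneg_right ?_ hs0)
  exact (le_abs_self _).trans
    (Finset.single_le_sum (f := fun T => |C T|) (fun _ _ => abs_nonneg _) (Finset.mem_univ T))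

theorem Sheet.holder [FiniteDimensional ℂ E] [FiniteDimensional ℂ V] (hR : 0 < R) (hδ : 0 < δ)
    (hD : 0 < D) (hg : Sheet R δ g) : ∃ C, 0 ≤ C ∧ ∀ z ∈ ball (0 : E) (δ / 2),
      ∀ z₁ ∈ ball (0 : E) (δ / 2), ∀ i, ∃ i',
        ‖g z i - g z₁ i'‖ ≤ C * ‖z - z₁‖ ^ (1 / (D : ℝ)) := by
  obtain ⟨n, l, m, C₀, hn, hC₀, hl⟩ := exists_forms (V := V) D
  choose C₁ hC₁ hh using fun t => hg.lin_holder hR hδ hD (l t)
  refine ⟨C₀ * ∑ t, C₁ t, mul_nonneg hC₀ (Finset.sum_nonneg fun t _ => hC₁ t), ?_⟩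
  intro z hz z₁ hz₁ i
  choose i' hi' using fun t => hh t z hz z₁ hz₁ i
  obtain ⟨j, -, hj⟩ := Finset.exists_lt_card_fiber_of_mul_lt_card_of_maps_to
    (s := Finset.univ) (t := Finset.univ) (f := i') (n := m) (fun _ _ => Finset.mem_univ _)
    (by simpa using hn)
  refine ⟨j, ?_⟩
  rw [mul_assoc]
  refine hl _ hj _ _ fun t ht => ?_
  have ht' := (Finset.mem_filter.1 ht).2
  have h1 := hi' t
  rw [ht'] at h1
  refine h1.trans (mul_le_mul_of_nonneg_right ?_ (by positivity))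
  exact Finset.single_le_sum (f := C₁) (fun t _ => hC₁ t) (Finset.mem_univ t)

end Pool.Agent.KRFLj
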