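import Pool.Agent.Work.MP_a2bf38_gt.Lj.RootsOne
import Pool.Agent.Work.MP_a2bf38_gt.Lj.RootsA

/-!
# The zeros of a holomorphic function on parallel discs, with the trace formula
-/

open Metric Set Filter Topology
open scoped Real

namespace Pool.Agent.KRFLj

variable {E : Type} [NormedAddCommGroup E] [NormedSpace ℂ E]

/-- The zeros of `t ↦ G (z + t v)` in a disc, with the trace formula. -/
theorem exists_roots [FiniteDimensional ℂ E] {G : E → ℂ} {δ₀ : ℝ} (hδ₀ : 0 < δ₀)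
    (hG : DifferentiableOn ℂ G (ball 0 δ₀)) (hG0 : G 0 = 0) {v : E}
    (hv : ¬ ∀ᶠ t : ℂ in 𝓝 0, G (t • v) = 0) :
    ∃ (ρ δ c : ℝ) (d : ℕ) (β : E → Fin d → ℂ), 0 < ρ ∧ 0 < δ ∧ 0 < c ∧ 0 < d ∧
      (∀ z ∈ ball (0 : E) δ, ∀ t : ℂ, ‖t‖ ≤ ρ → z + t • v ∈ ball (0 : E) δ₀) ∧
      (∀ z ∈ ball (0 : E) δ, ∀ j, ‖β z j‖ < ρ ∧ G (z + β z j • v) = 0) ∧
      (∀ z ∈ ball (0 : E) δ, ∀ t : ℂ, ‖t‖ ≤ ρ → c * ∏ j, ‖t - β z j‖ ≤ ‖G (z + t • v)‖) ∧
      ∀ N : E → ℂ, DifferentiableOn ℂ N (ball 0 δ₀) →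
        DifferentiableOn ℂ (fun z => ∑ j, N (z + β z j • v)) (ball 0 δ) := by
  classical
  -- the vector is not zero
  have hv0 : v ≠ 0 := by
    rintro rfl
    exact hv (Eventually.of_forall fun t => by simp [hG0])
  have hvn : 0 < ‖v‖ := norm_pos_iff.2 hv0
  -- radii
  set ρ' : ℝ := δ₀ / (2 * ‖v‖) with hρ'
  have hρ'0 : 0 < ρ' := by positivity
  have hmem : ∀ z ∈ ball (0 : E) (δ₀ / 2), ∀ t : ℂ, t ∈ ball (0 : ℂ) ρ' →
      z + t • v ∈ ball (0 : E) δ₀ := by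
    intro z hz t ht
    rw [mem_ball_zero_iff] at hz ht ⊢
    have h1 : ‖t • v‖ < δ₀ / 2 := by
      rw [norm_smul]
      calc ‖t‖ * ‖v‖ < ρ' * ‖v‖ := mul_lt_mul_of_pos_right ht hvn
        _ = δ₀ / 2 := by rw [hρ']; field_simp
    calc ‖z + t • v‖ ≤ ‖z‖ + ‖t • v‖ := norm_add_le _ _
      _ < δ₀ / 2 + δ₀ / 2 := add_lt_add hz h1
      _ = δ₀ := by ring
  have hline : ∀ z ∈ ball (0 : E) (δ₀ / 2), ∀ N : E → ℂ, DifferentiableOn ℂ N (ball 0 δ₀) →
      DifferentiableOn ℂ (fun t : ℂ => N (z + t • v)) (ball 0 ρ') := by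
    intro z hz N hN
    refine hN.comp ?_ (fun t ht => hmem z hz t ht)
    exact ((differentiable_id.smul_const v).const_add z).differentiableOn
  have h0m : (0 : E) ∈ ball (0 : E) (δ₀ / 2) := mem_ball_self (by positivity)
  -- isolated zero on the line
  have hφan : AnalyticAt ℂ (fun t : ℂ => G (t • v)) 0 := by
    have h1 := hline 0 h0m G hG
    simp only [zero_add] at h1
    exact h1.analyticAt (isOpen_ball.mem_nhds (mem_ball_self hρ'0))
  have hiso : ∀ᶠ t : ℂ in 𝓝[≠] 0, G (t • v) ≠ 0 :=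
    (hφan.eventually_eq_zero_or_eventually_ne_zero).resolve_left hv
  obtain ⟨ε, hε, hεG⟩ : ∃ ε > 0, ∀ t : ℂ, t ≠ 0 → ‖t‖ < ε → G (t • v) ≠ 0 := by
    rw [eventually_nhdsWithin_iff, Metric.eventually_nhds_iff] at hiso
    obtain ⟨ε, hε, h1⟩ := hiso
    exact ⟨ε, hε, fun t ht hlt => h1 (by rwa [dist_zero_right]) ht⟩
  set ρ : ℝ := min (ε / 2) (ρ' / 2) with hρ
  have hρ0 : 0 < ρ := lt_min (by positivity) (by positivity)
  have hρε : ρ < ε := (min_le_left _ _).trans_lt (by linarith)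
  have hρρ' : ρ < ρ' := (min_le_right _ _).trans_lt (by linarith)
  -- lower bound on the circle
  have hsph : ∀ t : ℂ, t ∈ sphere (0 : ℂ) ρ → G ((0 : E) + t • v) ≠ 0 := by
    intro t ht
    rw [mem_sphere_zero_iff_norm] at ht
    rw [zero_add]
    exact hεG t (fun h => by rw [h, norm_zero] at ht; exact hρ0.ne ht) (ht ▸ hρε)
  have hcG : ∀ t : ℂ, t ∈ sphere (0 : ℂ) ρ →
      ContinuousAt (fun p : E × ℂ => G (p.1 + p.2 • v)) ((0 : E), t) := by
    intro t ht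
    rw [mem_sphere_zero_iff_norm] at ht
    have h1 : ContinuousAt G ((0 : E) + t • v) :=
      (hG.differentiableAt (isOpen_ball.mem_nhds (hmem 0 h0m t
        (by rw [mem_ball_zero_iff, ht]; exact hρρ')))).continuousAt
    exact ContinuousAt.comp (f := fun p : E × ℂ => p.1 + p.2 • v) (x := ((0 : E), t)) h1
      (by fun_prop)
  obtain ⟨m, hm, hmG⟩ : ∃ m : ℝ, 0 < m ∧ ∀ t : ℂ, t ∈ sphere (0 : ℂ) ρ →
      m < ‖G ((0 : E) + t • v)‖ := by
    have hcomp : IsCompact (sphere (0 : ℂ) ρ) := isCompact_sphere _ _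
    have hne : (sphere (0 : ℂ) ρ).Nonempty := NormedSpace.sphere_nonempty.2 hρ0.le
    have hcont : ContinuousOn (fun t : ℂ => ‖G ((0 : E) + t • v)‖) (sphere (0 : ℂ) ρ) := by
      have h1 := (hline 0 h0m G hG).continuousOn.norm
      exact h1.mono fun t ht => by
        rw [mem_sphere_zero_iff_norm] at ht
        rw [mem_ball_zero_iff, ht]; exact hρρ'
    obtain ⟨t₀, ht₀, hmin⟩ := hcomp.exists_isMinOn hne hcont
    have hp : 0 < ‖G ((0 : E) + t₀ • v)‖ := norm_pos_iff.2 (hsph t₀ ht₀)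
    refine ⟨‖G ((0 : E) + t₀ • v)‖ / 2, by positivity, fun t ht => ?_⟩
    have : ‖G ((0 : E) + t₀ • v)‖ ≤ ‖G ((0 : E) + t • v)‖ := hmin ht
    linarith
  have hev : ∀ᶠ z in 𝓝 (0 : E), ∀ t ∈ sphere (0 : ℂ) ρ, m < ‖G (z + t • v)‖ := by
    refine (isCompact_sphere (0 : ℂ) ρ).eventually_forall_of_forall_eventually
      (P := fun z t => m < ‖G (z + t • v)‖) fun t ht => ?_
    exact (hcG t ht).norm.eventually_const_lt (hmG t ht)
  obtain ⟨δ₁, hδ₁, hδ₁G⟩ := Metric.eventually_nhds_iff.1 hev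
  set δ : ℝ := min δ₁ (δ₀ / 2) with hδ
  have hδ0 : 0 < δ := lt_min hδ₁ (by positivity)
  have hδ2 : ∀ z ∈ ball (0 : E) δ, z ∈ ball (0 : E) (δ₀ / 2) := fun z hz =>
    ball_subset_ball (min_le_right _ _) hz
  have hlow : ∀ z ∈ ball (0 : E) δ, ∀ t : ℂ, ‖t‖ = ρ → m < ‖G (z + t • v)‖ := by
    intro z hz t ht
    refine hδ₁G ?_ t (mem_sphere_zero_iff_norm.2 ht)
    exact lt_of_lt_of_le (mem_ball.1 hz) (min_le_left _ _)
  have hne : ∀ z ∈ ball (0 : E) δ, ∀ t : ℂ, ‖t‖ = ρ → G (z + t • v) ≠ 0 := fun z hz t ht h0 => by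
    have := hlow z hz t ht
    rw [h0, norm_zero] at this
    exact lt_asymm this hm
  -- factorization for every point
  have hfac : ∀ z : E, ∃ (d : ℕ) (b : Fin d → ℂ) (u : ℂ → ℂ), z ∈ ball (0 : E) δ →
      (∀ j, ‖b j‖ < ρ) ∧ DifferentiableOn ℂ u (ball 0 ρ') ∧ (∀ t, ‖t‖ ≤ ρ → u t ≠ 0) ∧
      ∀ t ∈ ball (0 : ℂ) ρ', G (z + t • v) = (∏ j, (t - b j)) * u t := by
    intro z
    by_cases hz : z ∈ ball (0 : E) δ
    · obtain ⟨d, b, u, h⟩ := factor hρ0 hρρ' (hline z (hδ2 z hz) G hG) (hne z hz)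
      exact ⟨d, b, u, fun _ => h⟩
    · exact ⟨0, fun _ => 0, fun _ => 0, fun h => absurd h hz⟩
  choose dd bb uu hdd using hfac
  -- the trace formula
  set U : Set E := {x ∈ ball (0 : E) δ₀ | G x ≠ 0} with hU
  have hUo : IsOpen U := by
    have h1 : U = ball (0 : E) δ₀ ∩ G ⁻¹' {0}ᶜ := by ext x; simp [hU]
    rw [h1]
    exact hG.continuousOn.isOpen_inter_preimage isOpen_ball isOpen_compl_singleton
  have htr : ∀ N : E → ℂ, DifferentiableOn ℂ N (ball 0 δ₀) → ∀ z ∈ ball (0 : E) δ,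
      (∮ t in C(0, ρ), N (z + t • v) * (fderiv ℂ G (z + t • v) v / G (z + t • v))) =
        2 * π * Complex.I * ∑ j, N (z + bb z j • v) := by
    intro N hN z hz
    obtain ⟨h1, h2, h3, h4⟩ := hdd z hz
    rw [← residue (N := fun t : ℂ => N (z + t • v)) hρ0 hρρ' h1 h2 h3 h4
      (hline z (hδ2 z hz) N hN)]
    refine circleIntegral.integral_congr hρ0.le fun t ht => ?_
    rw [mem_sphere_zero_iff_norm] at ht
    have h5 : HasDerivAt (fun t : ℂ => G (z + t • v)) (fderiv ℂ G (z + t • v) v) t := by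
      have h6 : HasFDerivAt G (fderiv ℂ G (z + t • v)) (z + t • v) :=
        (hG.differentiableAt (isOpen_ball.mem_nhds (hmem z (hδ2 z hz) t
          (by rw [mem_ball_zero_iff, ht]; exact hρρ')))).hasFDerivAt
      have h7 : HasDerivAt (fun t : ℂ => z + t • v) v t := by
        simpa using ((hasDerivAt_id t).smul_const v).const_add z
      exact h6.comp_hasDerivAt t h7
    simp only [h5.deriv]
  have hhol : ∀ N : E → ℂ, DifferentiableOn ℂ N (ball 0 δ₀) → DifferentiableOn ℂ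
      (fun z => ∮ t in C(0, ρ), N (z + t • v) * (fderiv ℂ G (z + t • v) v / G (z + t • v)))
      (ball 0 δ) := by
    intro N hN
    have hpr : ProperSpace E := FiniteDimensional.proper ℂ E
    refine differentiableOn_circle (Φ := fun x => N x * (fderiv ℂ G x v / G x)) hUo isOpen_ball
      ?_ hρ0.le ?_
    · have hs : U ⊆ ball (0 : E) δ₀ := fun x hx => hx.1
      have h1 : DifferentiableOn ℂ (fun x => fderiv ℂ G x v) U :=
        (SCV.differentiableOn_fderiv_apply isOpen_ball hG v).mono hs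
      have h2 : DifferentiableOn ℂ (fun x => fderiv ℂ G x v / G x) U := by
        have h3 : DifferentiableOn ℂ (fun x => (G x)⁻¹) U := (hG.mono hs).inv fun x hx => hx.2
        refine (h1.mul h3).congr fun x _ => ?_
        rw [div_eq_mul_inv]
        rfl
      exact (hN.mono hs).mul h2
    · intro z hz t ht
      exact ⟨hmem z (hδ2 z hz) t (by rw [mem_ball_zero_iff, ht]; exact hρρ'), hne z hz t ht⟩
  -- the number of zeros is constant
  have hconst : ∀ z ∈ ball (0 : E) δ, dd z = dd 0 := by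
    intro z hz
    refine const_nat (convex_ball (0 : E) δ).isPreconnected (d := dd)
      (hhol (fun _ => 1) (differentiableOn_const 1)).continuousOn (fun z hz => ?_) hz
      (mem_ball_self hδ0)
    rw [htr (fun _ => 1) (differentiableOn_const 1) z hz]
    simp
  have hex : ∀ z : E, ∃ b : Fin (dd 0) → ℂ, z ∈ ball (0 : E) δ →
      (∀ j, ‖b j‖ < ρ ∧ G (z + b j • v) = 0) ∧
      (∀ t : ℂ, ‖t‖ ≤ ρ → m / (2 * ρ) ^ dd 0 * ∏ j, ‖t - b j‖ ≤ ‖G (z + t • v)‖) ∧
      ∀ N : E → ℂ, ∑ j, N (z + b j • v) = ∑ j, N (z + bb z j • v) := by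
    intro z
    by_cases hz : z ∈ ball (0 : E) δ
    · obtain ⟨h1, h2, h3, h4⟩ := hdd z hz
      have h5 := lower hρ0 hρρ' h1 h2 h3 h4 hm.le (fun t ht => (hlow z hz t ht).le)
      have h6 : ∀ j, G (z + bb z j • v) = 0 := by
        intro j
        rw [h4 _ (by rw [mem_ball_zero_iff]; exact (h1 j).trans hρρ'),
          Finset.prod_eq_zero (Finset.mem_univ j) (sub_self _), zero_mul]
      have h7 := hconst z hz
      rw [← h7]
      exact ⟨bb z, fun _ => ⟨fun j => ⟨h1 j, h6 j⟩, h5, fun N => rfl⟩⟩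
    · exact ⟨fun _ => 0, fun h => absurd h hz⟩
  choose β hβ using hex
  refine ⟨ρ, δ, m / (2 * ρ) ^ dd 0, dd 0, β, hρ0, hδ0, by positivity, ?_, ?_, ?_, ?_, ?_⟩
  · -- there is a zero
    rcases Nat.eq_zero_or_pos (dd 0) with h0 | h0
    · exfalso
      obtain ⟨h1, h2, h3, h4⟩ := hdd 0 (mem_ball_self hδ0)
      have h5 := h4 0 (mem_ball_self hρ'0)
      rw [zero_smul, add_zero, hG0] at h5
      have h6 : (∏ j, ((0 : ℂ) - bb 0 j)) = 1 := by
        refine Finset.prod_eq_one fun j _ => ?_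
        have := j.2
        omega
      rw [h6, one_mul] at h5
      exact h3 0 (by rw [norm_zero]; exact hρ0.le) h5.symm
    · exact h0
  · intro z hz t ht
    exact hmem z (hδ2 z hz) t (by rw [mem_ball_zero_iff]; exact ht.trans_lt hρρ')
  · intro z hz
    exact (hβ z hz).1
  · intro z hz
    exact (hβ z hz).2.1
  · intro N hN
    have h1 := (hhol N hN).const_mul ((2 * π * Complex.I)⁻¹)
    refine h1.congr fun z hz => ?_
    rw [(hβ z hz).2.2 N, htr N hN z hz, ← mul_assoc, inv_mul_cancel₀ Complex.two_pi_I_ne_zero,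
      one_mul]

end Pool.Agent.KRFLj
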