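import Pool.Agent.Work.MP_a2bf38_gt.Lj.Norm
import Pool.Agent.Work.MP_a2bf38_gt.Lj.Holder
import Pool.Agent.Work.MP_a2bf38_gt.Lj.Roots
import Pool.Agent.Work.MP_a2bf38_gt.Lj.Global
import Pool.Agent.Work.MP_0e9e72_an.SCVA

/-!
# The Łojasiewicz inequality for holomorphic maps near a point
-/

open Metric Set Filter Topology

namespace Pool.Agent.KRFLj

section

variable {E V : Type} [NormedAddCommGroup E] [NormedSpace ℂ E] [NormedAddCommGroup V]
  [NormedSpace ℂ V]

/-- the identity theorem along the lines through `0` -/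
theorem eq_zero_of_lines {G : E → ℂ} {δ : ℝ} (hG : DifferentiableOn ℂ G (ball 0 δ))
    (h : ∀ v : E, ∀ᶠ t : ℂ in 𝓝 0, G (t • v) = 0) {z : E} (hz : z ∈ ball (0 : E) δ) :
    G z = 0 := by
  set U : Set ℂ := {t | t • z ∈ ball (0 : E) δ} with hU
  have hUo : IsOpen U := isOpen_ball.preimage (by fun_prop)
  have hδ : 0 < δ := lt_of_le_of_lt dist_nonneg hz
  have hUc : IsPreconnected U := by
    have h1 : Convex ℝ U := by
      have h2 : U = (LinearMap.toSpanSingleton ℂ E z).restrictScalars ℝ ⁻¹' ball (0 : E) δ := rfl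
      rw [h2]
      exact (convex_ball (0 : E) δ).linear_preimage _
    exact h1.isPreconnected
  have h0 : (0 : ℂ) ∈ U := by simp [hU, hδ]
  have h1 : (1 : ℂ) ∈ U := by simpa [hU] using hz
  have hd : DifferentiableOn ℂ (fun t : ℂ => G (t • z)) U :=
    hG.comp (by fun_prop) fun t ht => ht
  have h2 := (hd.analyticOnNhd hUo).eqOn_zero_of_preconnected_of_eventuallyEq_zero hUc h0 (h z) h1
  simpa using h2

theorem eventually_of_lines {G : E → ℂ} {δ : ℝ} (hδ : 0 < δ)
    (hG : DifferentiableOn ℂ G (ball 0 δ)) (h : ∀ v : E, ∀ᶠ t : ℂ in 𝓝 0, G (t • v) = 0) :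
    ∀ᶠ z in 𝓝 0, G z = 0 := by
  filter_upwards [ball_mem_nhds (0 : E) hδ] with z hz
  exact eq_zero_of_lines hG h hz

/-- a splitting of `E` along `v` -/
theorem exists_split [FiniteDimensional ℂ E] {v : E} (hv : v ≠ 0) :
    ∃ (E' : Submodule ℂ E) (P : E →L[ℂ] E') (lam : E →L[ℂ] ℂ),
      Module.finrank ℂ E = Module.finrank ℂ E' + 1 ∧ ∀ z, z = (P z : E) + lam z • v := by
  obtain ⟨E', hE'⟩ := Submodule.exists_isCompl (Submodule.span ℂ {v})
  have h1 : Module.finrank ℂ E = Module.finrank ℂ E' + 1 := by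
    have h2 := Submodule.finrank_add_eq_of_isCompl hE'
    rw [finrank_span_singleton hv] at h2
    omega
  let P₀ : E →ₗ[ℂ] E' := Submodule.projectionOnto E' (Submodule.span ℂ {v}) hE'.symm
  let Q₀ : E →ₗ[ℂ] Submodule.span ℂ {v} :=
    Submodule.projectionOnto (Submodule.span ℂ {v}) E' hE'
  let L₀ : E →ₗ[ℂ] ℂ := (LinearEquiv.toSpanNonzeroSingleton ℂ E v hv).symm.toLinearMap ∘ₗ Q₀
  refine ⟨E', LinearMap.toContinuousLinearMap P₀, LinearMap.toContinuousLinearMap L₀, h1,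
    fun z => ?_⟩
  have h3 : (Q₀ z : E) + (P₀ z : E) = z :=
    Submodule.projection_add_projection_eq_self hE' z
  have h4 : (L₀ z) • v = (Q₀ z : E) := by
    have h5 := (LinearEquiv.toSpanNonzeroSingleton ℂ E v hv).apply_symm_apply (Q₀ z)
    have h6 := congrArg Subtype.val h5
    rw [LinearEquiv.toSpanNonzeroSingleton_apply] at h6
    exact h6
  change z = (P₀ z : E) + L₀ z • v
  rw [h4, add_comm, h3]

theorem exists_lipschitz [FiniteDimensional ℂ V] {R : ℝ} (hR : 0 < R) {N : ℕ}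
    {H : V → Fin N → ℂ} (hH : DifferentiableOn ℂ H (ball 0 (2 * R))) :
    ∃ L, 0 ≤ L ∧ ∀ p p' : V, ‖p‖ ≤ R → ‖p'‖ ≤ R → ‖H p - H p'‖ ≤ L * ‖p - p'‖ := by
  have : ProperSpace V := FiniteDimensional.proper ℂ V
  have hsub : closedBall (0 : V) R ⊆ ball 0 (2 * R) := closedBall_subset_ball (by linarith)
  have h1 : ContinuousOn (fderiv ℂ H) (ball 0 (2 * R)) :=
    (SCV.contDiffOn_of_differentiableOn isOpen_ball hH (n := 1)).continuousOn_fderiv_of_isOpen
      isOpen_ball le_rfl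
  obtain ⟨L, hL⟩ := (isCompact_closedBall (0 : V) R).exists_bound_of_continuousOn
    (h1.mono hsub)
  refine ⟨max L 0, le_max_right _ _, fun p p' hp hp' => ?_⟩
  have h2 := (convex_closedBall (0 : V) R).norm_image_sub_le_of_norm_fderiv_le (𝕜 := ℂ)
    (f := H) (C := max L 0) (fun x hx => hH.differentiableAt (isOpen_ball.mem_nhds (hsub hx)))
    (fun x hx => (hL x hx).trans (le_max_left _ _)) (x := p') (y := p) (by simpa using hp')
    (by simpa using hp)
  exact h2

/-- the smallest factor of a product -/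
theorem exists_factor {d : ℕ} (hd : 0 < d) {x : Fin d → ℝ} (hx : ∀ j, 0 ≤ x j) {B : ℝ}
    (h : ∏ j, x j ≤ B) : ∃ j, x j ≤ B ^ (1 / (d : ℝ)) := by
  by_contra! hcon
  have hd' : (d : ℝ) ≠ 0 := by exact_mod_cast hd.ne'
  have hB : 0 ≤ B := (Finset.prod_nonneg fun j _ => hx j).trans h
  have h1 : ∏ _j : Fin d, B ^ (1 / (d : ℝ)) < ∏ j, x j := by
    rcases hB.eq_or_lt with h0 | h0
    · rw [← h0, Real.zero_rpow (by positivity)] at hcon ⊢
      rw [Finset.prod_const, Finset.card_univ, Fintype.card_fin, zero_pow hd.ne']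
      exact Finset.prod_pos fun j _ => hcon j
    · refine Finset.prod_lt_prod_of_nonempty (fun j _ => by positivity) (fun j _ => hcon j) ?_
      exact ⟨⟨0, hd⟩, Finset.mem_univ _⟩
  rw [Finset.prod_const, Finset.card_univ, Fintype.card_fin, ← Real.rpow_natCast, ← Real.rpow_mul hB,
    one_div_mul_cancel hd', Real.rpow_one] at h1
  linarith

theorem exists_add_rpow {C₁ C₂ a b : ℝ} (hC₁ : 0 ≤ C₁) (hC₂ : 0 ≤ C₂) {x : ℝ}
    (hx : 0 < x) (hx1 : x ≤ 1) : C₁ * x ^ a + C₂ * x ^ b ≤ (C₁ + C₂) * x ^ min a b := by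
  have h1 : x ^ a ≤ x ^ min a b := Real.rpow_le_rpow_of_exponent_ge hx hx1 (min_le_left _ _)
  have h2 : x ^ b ≤ x ^ min a b := Real.rpow_le_rpow_of_exponent_ge hx hx1 (min_le_right _ _)
  linarith [mul_le_mul_of_nonneg_left h1 hC₁, mul_le_mul_of_nonneg_left h2 hC₂]

/-- `C x ^ b` is small if `x` is small -/
theorem exists_small {C b ε : ℝ} (hb : 0 < b) (hε : 0 < ε) :
    ∃ c > 0, ∀ x, 0 ≤ x → x < c → C * x ^ b < ε := by
  have h1 : Tendsto (fun x : ℝ => C * x ^ b) (𝓝 0) (𝓝 (C * 0 ^ b)) :=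
    (continuous_const.mul (Real.continuous_rpow_const hb.le)).tendsto 0
  rw [Real.zero_rpow hb.ne', mul_zero] at h1
  obtain ⟨c, hc, h2⟩ := Metric.eventually_nhds_iff_ball.1 (h1.eventually (gt_mem_nhds hε))
  refine ⟨c, hc, fun x hx hxc => h2 x ?_⟩
  rw [mem_ball, dist_zero_right, Real.norm_of_nonneg hx]
  exact hxc

theorem claim [FiniteDimensional ℂ V] {R : ℝ} (hR : 0 < R) {N : ℕ} {H : V → Fin N → ℂ}
    (hH : DifferentiableOn ℂ H (ball 0 (2 * R))) (k : ℕ) :
    ∀ (E : Type) [NormedAddCommGroup E] [NormedSpace ℂ E] [FiniteDimensional ℂ E],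
      Module.finrank ℂ E = k → ∀ (δ : ℝ) (D : ℕ) (g : E → Fin D → V), 0 < δ → Sheet R δ g →
      ∃ C a c δ' : ℝ, 0 < C ∧ 0 < a ∧ 0 < c ∧ 0 < δ' ∧ δ' ≤ δ ∧
        ∀ z ∈ ball (0 : E) δ', ∀ i, ‖H (g z i)‖ < c → ∃ z' ∈ ball (0 : E) δ, ∃ i',
          H (g z' i') = 0 ∧ ‖g z i - g z' i'‖ ≤ C * ‖H (g z i)‖ ^ a := by
  obtain ⟨L, hL, hLip⟩ := exists_lipschitz hR hH
  induction k with
  | zero =>
    intro E _ _ _ hk δ D g hδ hg
    obtain ⟨G, hG, hne, C₀, hC₀, hGle⟩ := hg.exists_norm hR hδ hH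
    have hsub : Subsingleton E := Module.finrank_zero_iff.1 hk
    have hG0 : G 0 ≠ 0 := by
      intro h
      refine hne (Eventually.of_forall fun z => ?_)
      rw [Subsingleton.elim z 0, h]
    refine ⟨1, 1, ‖G 0‖ / (C₀ + 1), δ, one_pos, one_pos, by positivity, hδ, le_rfl,
      fun z hz i hi => ⟨z, hz, i, ?_, by simp⟩⟩
    by_contra h
    have h1 := hGle z hz i h
    rw [Subsingleton.elim z 0] at h1 h hi
    rw [lt_div_iff₀ (by positivity)] at hi
    have h2 : 0 < ‖H (g 0 i)‖ := norm_pos_iff.2 h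
    linarith
  | succ k ih =>
    intro E _ _ _ hk δ D g hδ hg
    obtain ⟨G, hG, hne, C₀, hC₀, hGle⟩ := hg.exists_norm hR hδ hH
    by_cases hG0 : G 0 = 0
    swap
    · -- no zeros
      have hcont : ContinuousAt G 0 :=
        (hG.differentiableAt (ball_mem_nhds 0 hδ)).continuousAt
      have hev : ∀ᶠ z in 𝓝 0, ‖G 0‖ / 2 < ‖G z‖ :=
        hcont.norm.eventually (lt_mem_nhds (half_lt_self (norm_pos_iff.2 hG0)))
      obtain ⟨δ₁, hδ₁, h1⟩ := Metric.eventually_nhds_iff_ball.1 hev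
      refine ⟨1, 1, ‖G 0‖ / 2 / (C₀ + 1), min δ δ₁, one_pos, one_pos, by positivity,
        lt_min hδ hδ₁, min_le_left _ _, fun z hz i hi => ?_⟩
      have hz1 : z ∈ ball (0 : E) δ := ball_subset_ball (min_le_left _ _) hz
      have hz2 := h1 z (ball_subset_ball (min_le_right _ _) hz)
      refine ⟨z, hz1, i, ?_, by simp⟩
      by_contra h
      have h3 := hGle z hz1 i h
      rw [lt_div_iff₀ (by positivity)] at hi
      have h2 : 0 < ‖H (g z i)‖ := norm_pos_iff.2 h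
      linarith
    · obtain ⟨v, hv⟩ : ∃ v : E, ¬ ∀ᶠ t : ℂ in 𝓝 0, G (t • v) = 0 := by
        by_contra! h
        exact hne (eventually_of_lines hδ hG h)
      have hv0 : v ≠ 0 := by
        rintro rfl
        exact hv (Eventually.of_forall fun t => by rw [smul_zero, hG0])
      obtain ⟨E', P, lam, hfin, hsplit⟩ := exists_split hv0
      obtain ⟨ρ, δ₁, c₁, d, β, hρ, hδ₁, hc₁, hd, hb, hβ, hlow, htr⟩ := exists_roots hδ hG hG0 hv
      rcases Nat.eq_zero_or_pos D with hD | hD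
      · subst hD
        exact ⟨1, 1, 1, δ, one_pos, one_pos, one_pos, hδ, le_rfl, fun z hz i => i.elim0⟩
      -- the new map
      set g' : E' → Fin (d * D) → V := fun z i =>
        g ((z : E) + β z (finProdFinEquiv.symm i).1 • v) (finProdFinEquiv.symm i).2 with hg'
      have hmemE : ∀ z ∈ ball (0 : E') δ₁, (z : E) ∈ ball (0 : E) δ₁ := by
        intro z hz
        simpa using hz
      have hmem : ∀ z ∈ ball (0 : E') δ₁, ∀ j, (z : E) + β z j • v ∈ ball (0 : E) δ :=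
        fun z hz j => hb _ (hmemE z hz) _ ((hβ _ (hmemE z hz) j).1.le)
      have hsheet : Sheet R δ₁ g' := by
        refine ⟨fun z hz i => hg.mem _ (hmem z hz _) _, fun h hh => ?_⟩
        have h1 : (fun z : E' => ∑ i, h (g' z i)) = fun z : E' =>
            (fun w : E => ∑ j, (fun w => ∑ i, h (g w i)) (w + β w j • v)) (z : E) := by
          funext z
          rw [← (finProdFinEquiv (m := d) (n := D)).sum_comp, Fintype.sum_prod_type]
          simp only [hg', Equiv.symm_apply_apply]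
        rw [h1]
        exact (htr _ (hg.trace h hh)).comp (E'.subtypeL.differentiableOn) hmemE
      obtain ⟨C, a, c, δ₂, hC, ha, hc, hδ₂, hδ₂₁, hind⟩ :=
        ih E' (by omega) δ₁ (d * D) g' hδ₁ hsheet
      obtain ⟨C₂, hC₂, hhol⟩ := hg.holder hR hδ hD
      -- the constants
      have hd' : (0 : ℝ) < d := by exact_mod_cast hd
      have hD' : (0 : ℝ) < D := by exact_mod_cast hD
      set b₁ : ℝ := 1 / (d : ℝ) with hb₁
      set b₂ : ℝ := 1 / (D : ℝ) with hb₂
      have hb₁0 : 0 < b₁ := by positivity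
      have hb₂0 : 0 < b₂ := by positivity
      set A₁ : ℝ := ‖v‖ * (C₀ / c₁) ^ b₁ with hA₁
      have hA₁0 : 0 ≤ A₁ := by positivity
      set A₂ : ℝ := C₂ * A₁ ^ b₂ with hA₂
      have hA₂0 : 0 ≤ A₂ := by positivity
      set b : ℝ := b₁ * b₂ with hb'
      have hb0 : 0 < b := by positivity
      set A₃ : ℝ := 1 + L * A₂ with hA₃
      have hA₃0 : 0 < A₃ := by positivity
      obtain ⟨e₁, he₁, hs₁⟩ := exists_small (C := A₁) hb₁0 (show 0 < δ / 4 by positivity)
      obtain ⟨e₂, he₂, hs₂⟩ := exists_small (C := A₃) (lt_min one_pos hb0) hc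
      have hPc : ∀ᶠ z : E in 𝓝 0, ‖P z‖ < min δ₁ δ₂ ∧ ‖lam z‖ < ρ := by
        have h1 : ContinuousAt (fun z : E => ‖P z‖) 0 := by fun_prop
        have h2 : ContinuousAt (fun z : E => ‖lam z‖) 0 := by fun_prop
        have h3 := h1.eventually (gt_mem_nhds (show ‖P 0‖ < min δ₁ δ₂ by
          rw [map_zero, norm_zero]
          exact lt_min hδ₁ hδ₂))
        have h4 := h2.eventually (gt_mem_nhds (show ‖lam 0‖ < ρ by
          rw [map_zero, norm_zero]
          exact hρ))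
        exact h3.and h4
      obtain ⟨δ₃, hδ₃, hP⟩ := Metric.eventually_nhds_iff_ball.1 hPc
      refine ⟨A₂ + C * A₃ ^ a + 1, min b (min 1 b * a), min (min e₁ e₂) 1,
        min (δ / 4) δ₃, by positivity, lt_min hb0 (mul_pos (lt_min one_pos hb0) ha),
        by positivity, by positivity, (min_le_left _ _).trans (by linarith),
        fun z hz i hi => ?_⟩
      have hzδ : z ∈ ball (0 : E) (δ / 4) := ball_subset_ball (min_le_left _ _) hz
      have hzδ' : z ∈ ball (0 : E) δ := ball_subset_ball (by linarith) hzδ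
      obtain ⟨hPz, hlz⟩ := hP z (ball_subset_ball (min_le_right _ _) hz)
      by_cases h0 : H (g z i) = 0
      · exact ⟨z, hzδ', i, h0, by rw [sub_self, norm_zero]; positivity⟩
      set x : ℝ := ‖H (g z i)‖ with hx
      have hx0 : 0 < x := norm_pos_iff.2 h0
      have hx1 : x ≤ 1 := (hi.trans_le (min_le_right _ _)).le
      have hxe₁ : x < e₁ := hi.trans_le ((min_le_left _ _).trans (min_le_left _ _))
      have hxe₂ : x < e₂ := hi.trans_le ((min_le_left _ _).trans (min_le_right _ _))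
      -- the root
      have hPzb : (P z) ∈ ball (0 : E') δ₁ := by
        simpa using hPz.trans_le (min_le_left _ _)
      have hPzb₂ : (P z) ∈ ball (0 : E') δ₂ := by
        simpa using hPz.trans_le (min_le_right _ _)
      have h1 : c₁ * ∏ j, ‖lam z - β (P z) j‖ ≤ C₀ * x := by
        refine (hlow _ (hmemE _ hPzb) (lam z) hlz.le).trans ?_
        rw [← hsplit z]
        exact hGle z hzδ' i h0
      have h2 : ∏ j, ‖lam z - β (P z) j‖ ≤ C₀ / c₁ * x := by
        rw [div_mul_eq_mul_div, le_div_iff₀ hc₁]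
        linarith
      obtain ⟨j, hj⟩ := exists_factor hd (fun j => norm_nonneg _) h2
      rw [Real.mul_rpow (by positivity) hx0.le] at hj
      set z₁ : E := (P z : E) + β (P z) j • v with hz₁
      have h3 : ‖z - z₁‖ ≤ A₁ * x ^ b₁ := by
        have h4 : z - z₁ = (lam z - β (P z) j) • v := by
          conv_lhs => rw [hsplit z]
          rw [hz₁, sub_smul]
          abel
        rw [h4, norm_smul]
        calc ‖lam z - β (P z) j‖ * ‖v‖ ≤ (C₀ / c₁) ^ b₁ * x ^ b₁ * ‖v‖ :=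
              mul_le_mul_of_nonneg_right hj (norm_nonneg _)
          _ = A₁ * x ^ b₁ := by rw [hA₁]; ring
      have h5 : ‖z - z₁‖ < δ / 4 := h3.trans_lt (hs₁ x hx0.le hxe₁)
      have hz₁b : z₁ ∈ ball (0 : E) (δ / 2) := by
        rw [mem_ball, dist_zero_right] at hzδ ⊢
        have h6 : ‖z₁‖ ≤ ‖z‖ + ‖z - z₁‖ := by
          have := norm_sub_le z (z - z₁)
          rwa [sub_sub_cancel] at this
        linarith
      obtain ⟨i', hi'⟩ := hhol z (ball_subset_ball (by linarith) hzδ) z₁ hz₁b i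
      have h7 : ‖g z i - g z₁ i'‖ ≤ A₂ * x ^ b := by
        refine hi'.trans ?_
        have h8 : ‖z - z₁‖ ^ b₂ ≤ (A₁ * x ^ b₁) ^ b₂ :=
          Real.rpow_le_rpow (norm_nonneg _) h3 hb₂0.le
        rw [Real.mul_rpow hA₁0 (by positivity), ← Real.rpow_mul hx0.le] at h8
        calc C₂ * ‖z - z₁‖ ^ b₂ ≤ C₂ * (A₁ ^ b₂ * x ^ (b₁ * b₂)) :=
              mul_le_mul_of_nonneg_left h8 hC₂
          _ = A₂ * x ^ b := by rw [hA₂, hb']; ring
      have hz₁δ : z₁ ∈ ball (0 : E) δ := ball_subset_ball (by linarith) hz₁b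
      have h9 : ‖H (g z₁ i')‖ ≤ A₃ * x ^ min 1 b := by
        have h10 := hLip (g z₁ i') (g z i) (hg.mem _ hz₁δ _) (hg.mem _ hzδ' _)
        have h11 : ‖H (g z₁ i')‖ ≤ ‖H (g z i)‖ + ‖H (g z₁ i') - H (g z i)‖ := by
          have := norm_add_le (H (g z i)) (H (g z₁ i') - H (g z i))
          rwa [add_sub_cancel] at this
        rw [norm_sub_rev (g z₁ i')] at h10
        have h12 : L * ‖g z i - g z₁ i'‖ ≤ L * (A₂ * x ^ b) := mul_le_mul_of_nonneg_left h7 hL
        have h13 := exists_add_rpow (a := 1) (b := b) zero_le_one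
          (mul_nonneg hL hA₂0) hx0 hx1
        rw [Real.rpow_one] at h13
        calc ‖H (g z₁ i')‖ ≤ 1 * x + L * A₂ * x ^ b := by linarith
          _ ≤ A₃ * x ^ min 1 b := h13
      have h14 : ‖H (g z₁ i')‖ < c := h9.trans_lt (hs₂ x hx0.le hxe₂)
      have h15 : g' (P z) (finProdFinEquiv (j, i')) = g z₁ i' := by
        simp only [hg', hz₁, Equiv.symm_apply_apply]
      obtain ⟨w, hw, l, hl0, hl⟩ := hind (P z) hPzb₂ (finProdFinEquiv (j, i')) (by rwa [h15])
      rw [h15] at hl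
      refine ⟨(w : E) + β w (finProdFinEquiv.symm l).1 • v, hmem w hw _,
        (finProdFinEquiv.symm l).2, hl0, ?_⟩
      change ‖g z i - g' w l‖ ≤ _
      have h16 : ‖H (g z₁ i')‖ ^ a ≤ A₃ ^ a * x ^ (min 1 b * a) := by
        have h17 := Real.rpow_le_rpow (norm_nonneg _) h9 ha.le
        rwa [Real.mul_rpow hA₃0.le (by positivity), ← Real.rpow_mul hx0.le] at h17
      have h18 : ‖g z i - g' w l‖ ≤ ‖g z i - g z₁ i'‖ + ‖g z₁ i' - g' w l‖ :=
        norm_sub_le_norm_sub_add_norm_sub _ _ _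
      have h19 : C * ‖H (g z₁ i')‖ ^ a ≤ C * A₃ ^ a * x ^ (min 1 b * a) := by
        rw [mul_assoc]
        exact mul_le_mul_of_nonneg_left h16 hC.le
      have h20 := exists_add_rpow (a := b) (b := min 1 b * a) hA₂0
        (show 0 ≤ C * A₃ ^ a by positivity) hx0 hx1
      have h21 : 0 ≤ x ^ min b (min 1 b * a) := Real.rpow_nonneg hx0.le _
      have h22 : (A₂ + C * A₃ ^ a + 1) * x ^ min b (min 1 b * a) =
          (A₂ + C * A₃ ^ a) * x ^ min b (min 1 b * a) + x ^ min b (min 1 b * a) := by ring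
      rw [h22]
      linarith

/-- The Łojasiewicz inequality near a point. -/
theorem local_loj [FiniteDimensional ℂ V] {R : ℝ} (hR : 0 < R) {N : ℕ} {H : V → Fin N → ℂ}
    (hH : DifferentiableOn ℂ H (ball 0 (2 * R))) (h0 : H 0 = 0) :
    ∃ C a δ : ℝ, 0 < C ∧ 0 < a ∧ 0 < δ ∧ ∀ p, ‖p‖ < δ → ∃ p', ‖p'‖ ≤ R ∧ H p' = 0 ∧
      ‖p - p'‖ ≤ C * ‖H p‖ ^ a := by
  have hs : Sheet R R (fun (p : V) (_ : Fin 1) => p) := by
    refine ⟨fun z hz _ => by simpa using (mem_ball_zero_iff.1 hz).le, fun h hh => ?_⟩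
    simp only [Finset.univ_unique, Finset.sum_const, Finset.card_singleton, one_smul]
    exact hh.mono (ball_subset_ball (by linarith))
  obtain ⟨C, a, c, δ, hC, ha, hc, hδ, hδR, hcl⟩ := claim hR hH (Module.finrank ℂ V) V rfl R 1 _ hR hs
  refine ⟨max C (δ / c ^ a), a, δ, lt_max_of_lt_left hC, ha, hδ, fun p hp => ?_⟩
  by_cases hpc : ‖H p‖ < c
  · obtain ⟨p', hp', -, h1, h2⟩ := hcl p (by simpa using hp) 0 hpc
    refine ⟨p', (mem_ball_zero_iff.1 hp').le, h1, h2.trans ?_⟩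
    exact mul_le_mul_of_nonneg_right (le_max_left _ _) (by positivity)
  · refine ⟨0, by simpa using hR.le, h0, ?_⟩
    rw [sub_zero]
    have h1 : c ^ a ≤ ‖H p‖ ^ a := Real.rpow_le_rpow hc.le (not_lt.1 hpc) ha.le
    have h2 : 0 < c ^ a := by positivity
    calc ‖p‖ ≤ δ := hp.le
      _ = δ / c ^ a * c ^ a := by field_simp
      _ ≤ max C (δ / c ^ a) * ‖H p‖ ^ a :=
          mul_le_mul (le_max_right _ _) h1 h2.le (le_max_of_le_left hC.le)

end

open Pool.Agent.ToricKRF Pool.Agent.ToricKRF.G Pool.Agent.KRFS Pool.Agent.KRFF in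
/-- The Łojasiewicz inequality for the fibre product of a holomorphic map of a compact manifold. -/
theorem isLoj {M Z : Type} [MetricSpace M] [CompactSpace M] [MetricSpace Z] {n N : ℕ}
    {κ P : Type} {e : κ → OpenPartialHomeomorph M (Cn n)} {U : P → Set Z} {q : P → Z → Cn N}
    {f : M → Z} (he : IsAtlas e) (hl : ∀ c, KRFZ.IsLip (e c) (e c).source)
    (hU : ∀ j, IsOpen (U j)) (hc : ∀ z, ∃ j, z ∈ U j) (hq : ∀ j, KRFZ.IsLip (q j) (U j))
    (hf : Continuous f) (hh : ∀ c j, HolOn (KRFZ.fmap e q f c j) (KRFZ.fdom e U f c j)) :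
    KRFZ.IsLoj f :=
  isLoj_of (fun _ _ hR hH h0 => local_loj hR hH h0) he hl hU hc hq hf hh

end Pool.Agent.KRFLj
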