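import Pool.Agent.Work.MP_a2bf38_gt.Lj.Esymm

/-!
# A holomorphic function which vanishes where `H` vanishes on more sheets than usual
-/

open Metric Set Filter Topology

namespace Pool.Agent.KRFLj

namespace NormAux

/-- The linear form with the coefficients `t ^ j`. -/
noncomputable def lin {N : ℕ} (t : ℂ) (w : Fin N → ℂ) : ℂ := ∑ j : Fin N, t ^ (j : ℕ) * w j

theorem exists_lin_ne {N D : ℕ} (w : Fin D → Fin N → ℂ) :
    ∃ t : ℂ, ∀ i, w i ≠ 0 → lin t (w i) ≠ 0 := by
  classical
  set p : Fin D → Polynomial ℂ := fun i => ∑ j : Fin N, Polynomial.monomial (j : ℕ) (w i j)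
    with hp
  have hev : ∀ i t, (p i).eval t = lin t (w i) := by
    intro i t
    simp only [hp, Polynomial.eval_finsetSum, Polynomial.eval_monomial, lin]
    exact Finset.sum_congr rfl fun j _ => mul_comm _ _
  have hne : ∀ i, w i ≠ 0 → p i ≠ 0 := by
    intro i hi h0
    apply hi
    funext j
    have h1 : (p i).coeff (j : ℕ) = w i j := by
      simp only [hp, Polynomial.finsetSum_coeff, Polynomial.coeff_monomial]
      rw [Finset.sum_eq_single j]
      · simp
      · intro k _ hk
        rw [if_neg]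
        intro h
        exact hk (Fin.ext h)
      · intro h
        exact absurd (Finset.mem_univ j) h
    rw [← h1, h0]
    simp
  set P : Polynomial ℂ := ∏ i ∈ Finset.univ.filter (fun i => w i ≠ 0), p i with hP
  have hP0 : P ≠ 0 := Finset.prod_ne_zero_iff.2 fun i hi => hne i (Finset.mem_filter.1 hi).2
  obtain ⟨t, ht⟩ : ∃ t, P.eval t ≠ 0 := by
    by_contra hc
    push Not at hc
    exact hP0 (Polynomial.funext fun t => by rw [hc t, Polynomial.eval_zero])
  refine ⟨t, fun i hi => ?_⟩
  rw [hP, Polynomial.eval_prod] at ht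
  have := Finset.prod_ne_zero_iff.1 ht i (Finset.mem_filter.2 ⟨Finset.mem_univ _, hi⟩)
  rwa [hev] at this

theorem norm_lin_le {N : ℕ} (t : ℂ) (w : Fin N → ℂ) :
    ‖lin t w‖ ≤ (∑ j : Fin N, ‖t‖ ^ (j : ℕ)) * ‖w‖ := by
  rw [lin, Finset.sum_mul]
  refine (norm_sum_le _ _).trans (Finset.sum_le_sum fun j _ => ?_)
  rw [norm_mul, norm_pow]
  exact mul_le_mul_of_nonneg_left (norm_le_pi_norm w j) (by positivity)

theorem lin_zero {N : ℕ} (t : ℂ) : lin t (0 : Fin N → ℂ) = 0 := by simp [lin]

/-- The elementary symmetric functions. -/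
noncomputable def esy {D : ℕ} (k : ℕ) (x : Fin D → ℂ) : ℂ :=
  ∑ s ∈ Finset.powersetCard k Finset.univ, ∏ i ∈ s, x i

theorem esy_zero {D : ℕ} (x : Fin D → ℂ) : esy 0 x = 1 := by simp [esy]

/-- The indices of the values which are not zero. -/
noncomputable def supp {D : ℕ} (x : Fin D → ℂ) : Finset (Fin D) := by
  classical exact Finset.univ.filter (fun i => x i ≠ 0)

theorem mem_supp {D : ℕ} {x : Fin D → ℂ} {i : Fin D} : i ∈ supp x ↔ x i ≠ 0 := by
  simp [supp]

theorem esy_card {D : ℕ} (x : Fin D → ℂ) : esy (supp x).card x = ∏ i ∈ supp x, x i := by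
  classical
  rw [esy, Finset.sum_eq_single (supp x)]
  · intro s hs hne
    rw [Finset.mem_powersetCard] at hs
    by_contra h0
    apply hne
    have h1 : s ⊆ supp x := fun i hi => mem_supp.2 (Finset.prod_ne_zero_iff.1 h0 i hi)
    exact Finset.eq_of_subset_of_card_le h1 hs.2.ge
  · intro h
    exact absurd (Finset.mem_powersetCard.2 ⟨Finset.subset_univ _, rfl⟩) h

theorem le_card_of_esy {D : ℕ} {k : ℕ} {x : Fin D → ℂ} (h : esy k x ≠ 0) : k ≤ (supp x).card := by
  classical
  obtain ⟨s, hs, h0⟩ := Finset.exists_ne_zero_of_sum_ne_zero h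
  rw [Finset.mem_powersetCard] at hs
  rw [← hs.2]
  exact Finset.card_le_card fun i hi => mem_supp.2 (Finset.prod_ne_zero_iff.1 h0 i hi)

/-- The identity theorem along the lines through `0`. -/
theorem eq_zero_of_eventually {E : Type} [NormedAddCommGroup E] [NormedSpace ℂ E] {δ : ℝ}
    {f : E → ℂ} (hf : DifferentiableOn ℂ f (ball 0 δ)) (h0 : ∀ᶠ z in 𝓝 0, f z = 0) {z : E}
    (hz : z ∈ ball (0 : E) δ) : f z = 0 := by
  set L : ℂ →L[ℂ] E := ContinuousLinearMap.smulRight (1 : ℂ →L[ℂ] ℂ) z with hL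
  have hLa : ∀ s : ℂ, L s = s • z := fun s => by simp [hL]
  set U : Set ℂ := L ⁻¹' ball (0 : E) δ with hU
  have hUo : IsOpen U := isOpen_ball.preimage L.continuous
  have hUc : Convex ℝ U :=
    (convex_ball (0 : E) δ).linear_preimage (L.restrictScalars ℝ).toLinearMap
  have hd : DifferentiableOn ℂ (fun s => f (L s)) U :=
    hf.comp L.differentiableOn (fun s hs => hs)
  have han : AnalyticOnNhd ℂ (fun s => f (L s)) U := hd.analyticOnNhd hUo
  have hδ : 0 < δ := pos_of_mem_ball hz
  have h0U : (0 : ℂ) ∈ U := by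
    simp only [hU, mem_preimage, hLa, zero_smul]
    exact mem_ball_self hδ
  have h1U : (1 : ℂ) ∈ U := by
    simp only [hU, mem_preimage, hLa, one_smul]
    exact hz
  have hev : (fun s => f (L s)) =ᶠ[𝓝 0] 0 := by
    have : Tendsto L (𝓝 0) (𝓝 (0 : E)) := by
      have := L.continuous.tendsto 0
      rwa [map_zero] at this
    exact this.eventually h0
  have := han.eqOn_zero_of_preconnected_of_eventuallyEq_zero hUc.isPreconnected h0U hev h1U
  simpa [hLa] using this

end NormAux

open NormAux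

variable {E V : Type} [NormedAddCommGroup E] [NormedSpace ℂ E] [NormedAddCommGroup V]
  [NormedSpace ℂ V] {R δ : ℝ} {D : ℕ} {g : E → Fin D → V}

/-- a holomorphic function which vanishes where the map `H` vanishes on more sheets than usual -/
theorem Sheet.exists_norm [FiniteDimensional ℂ E] [FiniteDimensional ℂ V] (hR : 0 < R)
    (hδ : 0 < δ) (hg : Sheet R δ g) {N : ℕ} {H : V → Fin N → ℂ}
    (hH : DifferentiableOn ℂ H (ball 0 (2 * R))) :
    ∃ G : E → ℂ, DifferentiableOn ℂ G (ball 0 δ) ∧ (¬ ∀ᶠ z in 𝓝 0, G z = 0) ∧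
      ∃ C, 0 ≤ C ∧ ∀ z ∈ ball (0 : E) δ, ∀ i, H (g z i) ≠ 0 → ‖G z‖ ≤ C * ‖H (g z i)‖ := by
  classical
  have hdiff : ∀ t k, DifferentiableOn ℂ (fun z => esy k (fun i => lin t (H (g z i))))
      (ball 0 δ) := by
    intro t k
    refine hg.esymm (h := fun v => lin t (H v)) ?_ k
    unfold lin
    refine DifferentiableOn.fun_sum fun j _ => ?_
    exact (differentiableOn_const _).mul (differentiableOn_pi.1 hH j)
  -- the largest `k` such that the function is not zero
  set Q : ℕ → Prop := fun k => ¬ ∀ t, ∀ᶠ z in 𝓝 (0 : E), esy k (fun i => lin t (H (g z i))) = 0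
    with hQ
  have hQ0 : Q 0 := by
    intro h
    obtain ⟨z, hz⟩ := (h 0).exists
    rw [esy_zero] at hz
    exact one_ne_zero hz
  have hQD : ∀ k, Q k → k ≤ D := by
    intro k hk
    by_contra hc
    apply hk
    intro t
    refine Eventually.of_forall fun z => ?_
    by_contra h0
    have h1 := le_card_of_esy h0
    have h2 := Finset.card_le_univ (supp fun i => lin t (H (g z i)))
    rw [Fintype.card_fin] at h2
    omega
  set r := Nat.findGreatest Q D with hr
  have hQr : Q r := Nat.findGreatest_spec (Nat.zero_le D) hQ0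
  have hgt : ∀ k, r < k → ∀ t, ∀ z ∈ ball (0 : E) δ, esy k (fun i => lin t (H (g z i))) = 0 := by
    intro k hk t z hz
    have h1 : ¬ Q k := by
      intro h
      have := Nat.le_findGreatest (hQD k h) h
      omega
    simp only [hQ, not_not] at h1
    exact eq_zero_of_eventually (hdiff t k) (h1 t) hz
  have hcard : ∀ t, ∀ z ∈ ball (0 : E) δ, (supp fun i => lin t (H (g z i))).card ≤ r := by
    intro t z hz
    by_contra hc
    push Not at hc
    have h1 := hgt _ hc t z hz
    rw [esy_card] at h1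
    obtain ⟨i, hi, hi0⟩ := Finset.prod_eq_zero_iff.1 h1
    exact mem_supp.1 hi hi0
  have hS : ∀ z ∈ ball (0 : E) δ,
      (Finset.univ.filter fun i => H (g z i) ≠ 0).card ≤ r := by
    intro z hz
    obtain ⟨t, ht⟩ := exists_lin_ne fun i => H (g z i)
    refine (Finset.card_le_card ?_).trans (hcard t z hz)
    intro i hi
    exact mem_supp.2 (ht i (Finset.mem_filter.1 hi).2)
  simp only [hQ, not_forall] at hQr
  obtain ⟨t, ht⟩ := hQr
  refine ⟨fun z => esy r (fun i => lin t (H (g z i))), hdiff t r, ht, ?_⟩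
  -- bounds
  set A : ℝ := ∑ j : Fin N, ‖t‖ ^ (j : ℕ) with hA
  have hA0 : 0 ≤ A := Finset.sum_nonneg fun j _ => by positivity
  have : ProperSpace V := FiniteDimensional.proper ℂ V
  obtain ⟨B, hB⟩ : ∃ B, ∀ v ∈ closedBall (0 : V) R, ‖H v‖ ≤ B := by
    refine (isCompact_closedBall (0 : V) R).exists_bound_of_continuousOn ?_
    exact hH.continuousOn.mono (closedBall_subset_ball (by linarith))
  set B' : ℝ := max 1 (A * B) with hB'
  have hB1 : 1 ≤ B' := le_max_left _ _
  refine ⟨A * B' ^ D, by positivity, ?_⟩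
  intro z hz i hi
  by_cases hG : esy r (fun i => lin t (H (g z i))) = 0
  · simp only [hG, norm_zero]
    positivity
  set x : Fin D → ℂ := fun i => lin t (H (g z i)) with hx
  have h1 : r ≤ (supp x).card := le_card_of_esy hG
  have h2 : (supp x).card ≤ r := hcard t z hz
  have h3 : (supp x).card = r := le_antisymm h2 h1
  have h4 : supp x = Finset.univ.filter fun i => H (g z i) ≠ 0 := by
    refine Finset.eq_of_subset_of_card_le (fun k hk => ?_) ?_
    · refine Finset.mem_filter.2 ⟨Finset.mem_univ _, fun h0 => ?_⟩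
      have := mem_supp.1 hk
      simp only [hx, h0, lin_zero, ne_eq, not_true_eq_false] at this
    · rw [h3]
      exact hS z hz
  have hi' : i ∈ supp x := by
    rw [h4]
    exact Finset.mem_filter.2 ⟨Finset.mem_univ _, hi⟩
  have h5 : esy r x = ∏ k ∈ supp x, x k := by rw [← h3]; exact esy_card x
  have hxB : ∀ k, ‖x k‖ ≤ B' := by
    intro k
    refine ((norm_lin_le t _).trans ?_).trans (le_max_right _ _)
    refine mul_le_mul_of_nonneg_left (hB _ ?_) hA0
    rw [mem_closedBall_zero_iff]
    exact hg.mem z hz k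
  have h6 : ‖esy r x‖ ≤ ‖x i‖ * B' ^ D := by
    rw [h5, ← Finset.mul_prod_erase _ _ hi', norm_mul]
    refine mul_le_mul_of_nonneg_left ?_ (norm_nonneg _)
    rw [norm_prod]
    refine (Finset.prod_le_prod (fun k _ => norm_nonneg _) fun k _ => hxB k).trans ?_
    rw [Finset.prod_const]
    refine pow_le_pow_right₀ hB1 ?_
    refine (Finset.card_erase_le).trans ?_
    have := Finset.card_le_univ (supp x)
    rwa [Fintype.card_fin] at this
  calc ‖esy r x‖ ≤ ‖x i‖ * B' ^ D := h6
    _ ≤ (A * ‖H (g z i)‖) * B' ^ D :=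
        mul_le_mul_of_nonneg_right (norm_lin_le t _) (by positivity)
    _ = A * B' ^ D * ‖H (g z i)‖ := by ring

end Pool.Agent.KRFLj
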