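import Mathlib

/-!
# Zeros of a holomorphic function of one variable in a disc

`factor`: the zeros in the disc split off; `residue`: the weighted argument principle; `lower`: the
lower bound by the product of the distances from the zeros.
-/

open Metric Set Filter Topology
open scoped Real

namespace Pool.Agent.KRFLj

/-- The zeros in the closed disc are finitely many, and at none of them the function vanishes
identically. -/
theorem zeros_finite {φ : ℂ → ℂ} {ρ ρ' : ℝ} (hρ : 0 < ρ) (hlt : ρ < ρ')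
    (hφ : DifferentiableOn ℂ φ (ball 0 ρ')) (hne : ∀ t, ‖t‖ = ρ → φ t ≠ 0) :
    {t : ℂ | ‖t‖ ≤ ρ ∧ φ t = 0}.Finite ∧ ∀ z ∈ ball (0 : ℂ) ρ', ¬ ∀ᶠ t in 𝓝 z, φ t = 0 := by
  have hana : AnalyticOnNhd ℂ φ (ball 0 ρ') := hφ.analyticOnNhd isOpen_ball
  have hpre : IsPreconnected (ball (0 : ℂ) ρ') := (convex_ball _ _).isPreconnected
  have hρm : ((ρ : ℝ) : ℂ) ∈ ball (0 : ℂ) ρ' := by
    rw [mem_ball_zero_iff, Complex.norm_real, Real.norm_of_nonneg hρ.le]
    exact hlt
  have hρn : φ (ρ : ℂ) ≠ 0 :=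
    hne _ (by rw [Complex.norm_real, Real.norm_of_nonneg hρ.le])
  constructor
  · by_contra hinf
    have hsub : {t : ℂ | ‖t‖ ≤ ρ ∧ φ t = 0} ⊆ closedBall (0 : ℂ) ρ := fun t ht => by
      rw [mem_closedBall_zero_iff]
      exact ht.1
    obtain ⟨z, hz, hacc⟩ := Set.Infinite.exists_accPt_of_subset_isCompact hinf
      (isCompact_closedBall (0 : ℂ) ρ) hsub
    have hzb : z ∈ ball (0 : ℂ) ρ' := by
      rw [mem_ball_zero_iff]
      rw [mem_closedBall_zero_iff] at hz
      exact hz.trans_lt hlt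
    have hfreq : ∃ᶠ t in 𝓝[≠] z, φ t = 0 := by
      rw [accPt_iff_frequently_nhdsNE] at hacc
      exact hacc.mono fun t ht => ht.2
    exact hρn (hana.eqOn_zero_of_preconnected_of_frequently_eq_zero hpre hzb hfreq hρm)
  · intro z hz hev
    exact hρn (hana.eqOn_zero_of_preconnected_of_eventuallyEq_zero hpre hz hev hρm)

/-- One zero splits off with its multiplicity. -/
theorem split_one {φ : ℂ → ℂ} {ρ' : ℝ} (hφ : DifferentiableOn ℂ φ (ball 0 ρ')) {z : ℂ}
    (hz : z ∈ ball (0 : ℂ) ρ') (hnz : ¬ ∀ᶠ t in 𝓝 z, φ t = 0) :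
    ∃ (n : ℕ) (g : ℂ → ℂ), DifferentiableOn ℂ g (ball 0 ρ') ∧ g z ≠ 0 ∧
      ∀ t ∈ ball (0 : ℂ) ρ', φ t = (t - z) ^ n * g t := by
  have hana : AnalyticAt ℂ φ z := hφ.analyticAt (isOpen_ball.mem_nhds hz)
  obtain ⟨n, g, hg, hgz, he⟩ := (hana.exists_eventuallyEq_pow_smul_nonzero_iff).2 hnz
  simp only [smul_eq_mul] at he
  classical
  set G : ℂ → ℂ := fun t => if t = z then g z else φ t / (t - z) ^ n with hG
  have hGz : G z = g z := by simp [hG]
  have hGe : G =ᶠ[𝓝 z] g := by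
    filter_upwards [he] with t ht
    by_cases h : t = z
    · subst h
      exact hGz
    · have h' : (t - z) ^ n ≠ 0 := pow_ne_zero _ (sub_ne_zero.2 h)
      simp only [hG, if_neg h, ht]
      field_simp
  refine ⟨n, G, ?_, by rw [hGz]; exact hgz, ?_⟩
  · intro t ht
    by_cases h : t = z
    · subst h
      exact (hGe.differentiableAt_iff.2 hg.differentiableAt).differentiableWithinAt
    · have hGt : G =ᶠ[𝓝 t] fun s => φ s / (s - z) ^ n := by
        filter_upwards [isOpen_ne.mem_nhds h] with s hs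
        simp only [hG, if_neg hs]
      refine (hGt.differentiableAt_iff.2 ?_).differentiableWithinAt
      exact (hφ.differentiableAt (isOpen_ball.mem_nhds ht)).div
        ((differentiableAt_id.sub_const z).pow n) (pow_ne_zero _ (sub_ne_zero.2 h))
  · intro t ht
    by_cases h : t = z
    · subst h
      rw [hGz]
      exact he.self_of_nhds
    · have h' : (t - z) ^ n ≠ 0 := pow_ne_zero _ (sub_ne_zero.2 h)
      simp only [hG, if_neg h]
      field_simp

theorem factor_aux {ρ ρ' : ℝ} (hlt : ρ < ρ') (s : Finset ℂ) : ∀ φ : ℂ → ℂ,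
    DifferentiableOn ℂ φ (ball 0 ρ') → (∀ z ∈ ball (0 : ℂ) ρ', ¬ ∀ᶠ t in 𝓝 z, φ t = 0) →
    (∀ t, ‖t‖ = ρ → φ t ≠ 0) → (∀ t : ℂ, ‖t‖ ≤ ρ → (φ t = 0 ↔ t ∈ s)) → (∀ t ∈ s, ‖t‖ ≤ ρ) →
    ∃ (l : List ℂ) (u : ℂ → ℂ), (∀ b ∈ l, ‖b‖ < ρ) ∧ DifferentiableOn ℂ u (ball 0 ρ') ∧
      (∀ t, ‖t‖ ≤ ρ → u t ≠ 0) ∧
      ∀ t ∈ ball (0 : ℂ) ρ', φ t = (l.map fun b => t - b).prod * u t := by
  classical
  induction s using Finset.induction_on with
  | empty =>
    intro φ hφ _ _ hs _
    exact ⟨[], φ, by simp, hφ, fun t ht h => by simpa using (hs t ht).1 h, fun t _ => by simp⟩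
  | insert z s hzs ih =>
    intro φ hφ hnz hne hs hsρ
    have hzρ : ‖z‖ ≤ ρ := hsρ z (Finset.mem_insert_self z s)
    have hz : z ∈ ball (0 : ℂ) ρ' := by
      rw [mem_ball_zero_iff]
      exact hzρ.trans_lt hlt
    have hφz : φ z = 0 := (hs z hzρ).2 (Finset.mem_insert_self z s)
    have hzρ' : ‖z‖ < ρ := lt_of_le_of_ne hzρ fun h => hne z h hφz
    obtain ⟨n, g, hg, hgz, he⟩ := split_one hφ hz (hnz z hz)
    have hgne : ∀ t, ‖t‖ = ρ → g t ≠ 0 := fun t ht h => hne t ht (by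
      rw [he t (by rw [mem_ball_zero_iff, ht]; exact hlt), h, mul_zero])
    have hn : n ≠ 0 := by
      rintro rfl
      have := he z hz
      rw [pow_zero, one_mul, hφz] at this
      exact hgz this.symm
    have hg0 : ∀ w ∈ ball (0 : ℂ) ρ', ¬ ∀ᶠ t in 𝓝 w, g t = 0 := by
      intro w hw hev
      refine hnz w hw ?_
      filter_upwards [hev, isOpen_ball.mem_nhds hw] with t ht htb
      rw [he t htb, ht, mul_zero]
    have hgs : ∀ t : ℂ, ‖t‖ ≤ ρ → (g t = 0 ↔ t ∈ s) := by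
      intro t ht
      have htb : t ∈ ball (0 : ℂ) ρ' := by
        rw [mem_ball_zero_iff]
        exact ht.trans_lt hlt
      by_cases h : t = z
      · subst h
        exact ⟨fun h => absurd h hgz, fun h => absurd h hzs⟩
      · have h1 := hs t ht
        rw [he t htb, mul_eq_zero, or_iff_right (pow_ne_zero _ (sub_ne_zero.2 h)),
          Finset.mem_insert, or_iff_right h] at h1
        exact h1
    obtain ⟨l, u, hl, hu, hu0, hlu⟩ := ih g hg hg0 hgne hgs
      fun t ht => hsρ t (Finset.mem_insert_of_mem ht)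
    refine ⟨List.replicate n z ++ l, u, ?_, hu, hu0, ?_⟩
    · intro b hb
      rcases List.mem_append.1 hb with hb | hb
      · rw [(List.mem_replicate.1 hb).2]
        exact hzρ'
      · exact hl b hb
    · intro t ht
      rw [he t ht, hlu t ht, List.map_append, List.prod_append, List.map_replicate,
        List.prod_replicate, mul_assoc]

/-- The zeros in the disc split off. -/
theorem factor {φ : ℂ → ℂ} {ρ ρ' : ℝ} (hρ : 0 < ρ) (hlt : ρ < ρ')
    (hφ : DifferentiableOn ℂ φ (ball 0 ρ')) (hne : ∀ t, ‖t‖ = ρ → φ t ≠ 0) :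
    ∃ (d : ℕ) (b : Fin d → ℂ) (u : ℂ → ℂ), (∀ j, ‖b j‖ < ρ) ∧
      DifferentiableOn ℂ u (ball 0 ρ') ∧ (∀ t, ‖t‖ ≤ ρ → u t ≠ 0) ∧
      ∀ t ∈ ball (0 : ℂ) ρ', φ t = (∏ j, (t - b j)) * u t := by
  obtain ⟨hfin, hnz⟩ := zeros_finite hρ hlt hφ hne
  obtain ⟨l, u, hl, hu, hu0, hlu⟩ := factor_aux hlt hfin.toFinset φ hφ hnz hne
    (fun t ht => by
      rw [Set.Finite.mem_toFinset]
      exact ⟨fun h => ⟨ht, h⟩, fun h => h.2⟩)
    (fun t ht => by
      rw [Set.Finite.mem_toFinset] at ht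
      exact ht.1)
  refine ⟨l.length, fun j => l.get j, u, fun j => hl _ (List.get_mem l j), hu, hu0, ?_⟩
  intro t ht
  rw [hlu t ht]
  congr 1
  rw [← List.prod_ofFn]
  congr 1
  apply List.ext_get
  · simp
  · intro n h₁ h₂
    simp

section

variable {φ : ℂ → ℂ} {ρ ρ' : ℝ} {d : ℕ} {b : Fin d → ℂ} {u : ℂ → ℂ}

/-- The weighted argument principle. -/
theorem residue (hρ : 0 < ρ) (hlt : ρ < ρ') (hb : ∀ j, ‖b j‖ < ρ)
    (hu : DifferentiableOn ℂ u (ball 0 ρ')) (hu0 : ∀ t, ‖t‖ ≤ ρ → u t ≠ 0)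
    (he : ∀ t ∈ ball (0 : ℂ) ρ', φ t = (∏ j, (t - b j)) * u t) {N : ℂ → ℂ}
    (hN : DifferentiableOn ℂ N (ball 0 ρ')) :
    (∮ t in C(0, ρ), N t * (deriv φ t / φ t)) = 2 * π * Complex.I * ∑ j, N (b j) := by
  have hcb : closedBall (0 : ℂ) ρ ⊆ ball 0 ρ' := closedBall_subset_ball hlt
  have hdu : DifferentiableOn ℂ (deriv u) (ball 0 ρ') := hu.deriv isOpen_ball
  have hq : DifferentiableOn ℂ (fun t => N t * (deriv u t / u t)) (closedBall 0 ρ) :=
    (hN.mono hcb).mul ((hdu.mono hcb).div (hu.mono hcb)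
      fun t ht => hu0 t (mem_closedBall_zero_iff.1 ht))
  have hkey : EqOn (fun t => N t * (deriv φ t / φ t))
      (fun t => (∑ j, (t - b j)⁻¹ • N t) + N t * (deriv u t / u t)) (sphere 0 ρ) := by
    intro t ht
    rw [mem_sphere_zero_iff_norm] at ht
    have htb : t ∈ ball (0 : ℂ) ρ' := by
      rw [mem_ball_zero_iff, ht]
      exact hlt
    have hnej : ∀ j, t - b j ≠ 0 := fun j h => by
      have h1 := hb j
      rw [← sub_eq_zero.1 h, ht] at h1
      exact lt_irrefl _ h1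
    have hl : logDeriv φ t = (∑ j, (t - b j)⁻¹) + logDeriv u t := by
      have h1 : φ =ᶠ[𝓝 t] fun s => (∏ j, (s - b j)) * u s := by
        filter_upwards [isOpen_ball.mem_nhds htb] with s hs using he s hs
      have h2 : logDeriv φ t = logDeriv (fun s => (∏ j, (s - b j)) * u s) t := by
        rw [logDeriv_apply, logDeriv_apply, h1.deriv_eq, h1.self_of_nhds]
      have hdj : ∀ j, DifferentiableAt ℂ (fun s : ℂ => s - b j) t := fun j => by fun_prop
      have hdp : DifferentiableAt ℂ (fun s : ℂ => ∏ j, (s - b j)) t := by fun_prop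
      rw [h2, logDeriv_mul t (f := fun s : ℂ => ∏ j, (s - b j)) (g := u)
        (Finset.prod_ne_zero_iff.2 fun j _ => hnej j) (hu0 t ht.le) hdp
        (hu.differentiableAt (isOpen_ball.mem_nhds htb))]
      congr 1
      rw [logDeriv_prod (f := fun j (s : ℂ) => s - b j) (fun j _ => hnej j) (fun j _ => hdj j)]
      refine Finset.sum_congr rfl fun j _ => ?_
      rw [logDeriv_apply, deriv_sub_const, deriv_id'', one_div]
    simp only [logDeriv_apply] at hl
    simp only [smul_eq_mul]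
    rw [hl, mul_add, Finset.mul_sum]
    congr 1
    exact Finset.sum_congr rfl fun j _ => mul_comm _ _
  rw [circleIntegral.integral_congr hρ.le hkey]
  have hint : ∀ j, CircleIntegrable (fun t => (t - b j)⁻¹ • N t) 0 ρ := by
    intro j
    refine ContinuousOn.circleIntegrable hρ.le ?_
    have hc1 : ContinuousOn (fun t : ℂ => t - b j) (sphere 0 ρ) := by fun_prop
    refine ContinuousOn.smul (ContinuousOn.inv₀ hc1 ?_) ?_
    · intro t ht h
      have h1 := hb j
      rw [← sub_eq_zero.1 h, mem_sphere_zero_iff_norm.1 ht] at h1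
      exact lt_irrefl _ h1
    · exact hN.continuousOn.mono (sphere_subset_closedBall.trans hcb)
  have hint' : CircleIntegrable (fun t => N t * (deriv u t / u t)) 0 ρ :=
    ContinuousOn.circleIntegrable hρ.le (hq.continuousOn.mono sphere_subset_closedBall)
  have hsum : CircleIntegrable (fun t => ∑ j, (t - b j)⁻¹ • N t) 0 ρ :=
    CircleIntegrable.fun_sum _ fun j _ => hint j
  have hz : (∮ t in C(0, ρ), N t * (deriv u t / u t)) = 0 :=
    Complex.circleIntegral_eq_zero_of_differentiable_on_off_countable hρ.le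
      (Set.countable_empty) hq.continuousOn fun z hz =>
        (hq z (ball_subset_closedBall hz.1)).differentiableAt (closedBall_mem_nhds_of_mem hz.1)
  rw [circleIntegral.integral_add hsum hint', hz, add_zero,
    circleIntegral.integral_fun_sum fun j _ => hint j, Finset.mul_sum]
  refine Finset.sum_congr rfl fun j _ => ?_
  have h1 := (hN.mono hcb).circleIntegral_sub_inv_smul (w := b j)
    (by rw [mem_ball_zero_iff]; exact hb j)
  rw [h1, smul_eq_mul]

/-- The lower bound by the product of the distances from the zeros. -/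
theorem lower (hρ : 0 < ρ) (hlt : ρ < ρ') (hb : ∀ j, ‖b j‖ < ρ)
    (hu : DifferentiableOn ℂ u (ball 0 ρ')) (hu0 : ∀ t, ‖t‖ ≤ ρ → u t ≠ 0)
    (he : ∀ t ∈ ball (0 : ℂ) ρ', φ t = (∏ j, (t - b j)) * u t) {m : ℝ} (hm : 0 ≤ m)
    (h : ∀ t, ‖t‖ = ρ → m ≤ ‖φ t‖) :
    ∀ t, ‖t‖ ≤ ρ → m / (2 * ρ) ^ d * ∏ j, ‖t - b j‖ ≤ ‖φ t‖ := by
  intro t ht
  have hnorm : ∀ t : ℂ, ‖t‖ ≤ ρ → ‖φ t‖ = (∏ j, ‖t - b j‖) * ‖u t‖ := by
    intro t ht
    rw [he t (by rw [mem_ball_zero_iff]; exact ht.trans_lt hlt), norm_mul, norm_prod]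
  have hd : 0 < (2 * ρ) ^ d := by positivity
  rcases hm.eq_or_lt with rfl | hm
  · rw [zero_div, zero_mul]
    exact norm_nonneg _
  have hub : ∀ t, ‖t‖ ≤ ρ → m / (2 * ρ) ^ d ≤ ‖u t‖ := by
    intro t ht
    have hdc : DiffContOnCl ℂ (fun s => (u s)⁻¹) (ball 0 ρ) := by
      refine DifferentiableOn.diffContOnCl ?_
      rw [closure_ball _ hρ.ne']
      exact (hu.mono (closedBall_subset_ball hlt)).inv
        fun s hs => hu0 s (mem_closedBall_zero_iff.1 hs)
    have h1 := Complex.norm_le_of_forall_mem_frontier_norm_le (isBounded_ball) hdc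
      (C := (2 * ρ) ^ d / m) ?_ (z := t) (by
        rw [closure_ball _ hρ.ne', mem_closedBall_zero_iff]
        exact ht)
    · rw [norm_inv] at h1
      have h2 : 0 < ‖u t‖ := norm_pos_iff.2 (hu0 t ht)
      rw [inv_le_comm₀ h2 (by positivity), inv_div] at h1
      exact h1
    · intro s hs
      rw [frontier_ball _ hρ.ne', mem_sphere_zero_iff_norm] at hs
      have h2 : 0 < ‖u s‖ := norm_pos_iff.2 (hu0 s hs.le)
      rw [norm_inv, inv_le_comm₀ h2 (by positivity), inv_div, div_le_iff₀ hd]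
      have h3 := h s hs
      rw [hnorm s hs.le] at h3
      have h4 : ∏ j, ‖s - b j‖ ≤ (2 * ρ) ^ d := by
        calc ∏ j, ‖s - b j‖ ≤ ∏ _j : Fin d, (2 * ρ) := by
              refine Finset.prod_le_prod (fun j _ => norm_nonneg _) fun j _ => ?_
              have := norm_sub_le s (b j)
              have := hb j
              linarith
          _ = (2 * ρ) ^ d := by simp
      calc m ≤ (∏ j, ‖s - b j‖) * ‖u s‖ := h3
        _ ≤ (2 * ρ) ^ d * ‖u s‖ := mul_le_mul_of_nonneg_right h4 h2.le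
        _ = ‖u s‖ * (2 * ρ) ^ d := mul_comm _ _
  rw [hnorm t ht, mul_comm]
  exact mul_le_mul_of_nonneg_left (hub t ht) (Finset.prod_nonneg fun j _ => norm_nonneg _)

end

end Pool.Agent.KRFLj
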