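import Pool.Agent.Work.MP_a2bf38_gt.Lj.Defs
import Pool.Agent.Work.MP_a2bf38_gt.Z.NatDefs

/-!
# The Łojasiewicz inequality for holomorphic maps: the modules

Useful: `Pool/Agent/Work/MP_0e9e72_an/SCVA.lean` (`SCV.contDiffOn_of_differentiableOn`,
`SCV.differentiableOn_fderiv_apply`, locally uniform limits), several complex variables.
-/

open scoped ContDiff
open Metric Set Filter Topology Pool.Agent.ToricKRF Pool.Agent.ToricKRF.G Pool.Agent.KRFS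
  Pool.Agent.KRFF

namespace Pool.Agent.KRFLj

variable {E V : Type} [NormedAddCommGroup E] [NormedSpace ℂ E] [NormedAddCommGroup V]
  [NormedSpace ℂ V]

/-! ## P1. `Lj/Roots.lean` -/

/-- The zeros of `t ↦ G (z + t v)` in a disc, with the trace formula. -/
theorem exists_roots [FiniteDimensional ℂ E] {G : E → ℂ} {δ₀ : ℝ} (hδ₀ : 0 < δ₀)
    (hG : DifferentiableOn ℂ G (ball 0 δ₀)) (hG0 : G 0 = 0) {v : E}
    (hv : ¬ ∀ᶠ t : ℂ in 𝓝 0, G (t • v) = 0) :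
    ∃ (ρ δ c : ℝ) (d : ℕ) (β : E → Fin d → ℂ), 0 < ρ ∧ 0 < δ ∧ 0 < c ∧ 0 < d ∧
      (∀ z ∈ ball (0 : E) δ, ∀ t : ℂ, ‖t‖ ≤ ρ → z + t • v ∈ ball (0 : E) δ₀) ∧
      (∀ z ∈ ball (0 : E) δ, ∀ j, ‖β z j‖ < ρ ∧ G (z + β z j • v) = 0) ∧
      (∀ z ∈ ball (0 : E) δ, ∀ t : ℂ, ‖t‖ ≤ ρ → c * ∏ j, ‖t - β z j‖ ≤ ‖G (z + t • v)‖) ∧
      ∀ N : E → ℂ, DifferentiableOn ℂ N (ball 0 δ₀) →
        DifferentiableOn ℂ (fun z => ∑ j, N (z + β z j • v)) (ball 0 δ) := sorry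

/-! ## P2. `Lj/Esymm.lean`, `Lj/Holder.lean`, `Lj/Norm.lean` -/

section

variable {R δ : ℝ} {D : ℕ} {g : E → Fin D → V}

/-- Newton's identities -/
theorem Sheet.esymm (hg : Sheet R δ g) {h : V → ℂ} (hh : DifferentiableOn ℂ h (ball 0 (2 * R)))
    (k : ℕ) : DifferentiableOn ℂ
      (fun z => ∑ s ∈ Finset.powersetCard k Finset.univ, ∏ i ∈ s, h (g z i)) (ball 0 δ) := sorry

theorem Sheet.holder [FiniteDimensional ℂ E] [FiniteDimensional ℂ V] (hR : 0 < R) (hδ : 0 < δ)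
    (hD : 0 < D) (hg : Sheet R δ g) : ∃ C, 0 ≤ C ∧ ∀ z ∈ ball (0 : E) (δ / 2),
      ∀ z₁ ∈ ball (0 : E) (δ / 2), ∀ i, ∃ i', ‖g z i - g z₁ i'‖ ≤ C * ‖z - z₁‖ ^ (1 / (D : ℝ)) := sorry

/-- a holomorphic function which vanishes where the map `H` vanishes on more sheets than usual -/
theorem Sheet.exists_norm [FiniteDimensional ℂ E] [FiniteDimensional ℂ V] (hR : 0 < R)
    (hδ : 0 < δ) (hg : Sheet R δ g) {N : ℕ} {H : V → Fin N → ℂ}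
    (hH : DifferentiableOn ℂ H (ball 0 (2 * R))) :
    ∃ G : E → ℂ, DifferentiableOn ℂ G (ball 0 δ) ∧ (¬ ∀ᶠ z in 𝓝 0, G z = 0) ∧
      ∃ C, 0 ≤ C ∧ ∀ z ∈ ball (0 : E) δ, ∀ i, H (g z i) ≠ 0 → ‖G z‖ ≤ C * ‖H (g z i)‖ := sorry

end

/-! ## P3. `Lj/Main.lean` -/

theorem claim [FiniteDimensional ℂ V] {R : ℝ} (hR : 0 < R) {N : ℕ} {H : V → Fin N → ℂ}
    (hH : DifferentiableOn ℂ H (ball 0 (2 * R))) (k : ℕ) :
    ∀ (E : Type) [NormedAddCommGroup E] [NormedSpace ℂ E] [FiniteDimensional ℂ E],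
      Module.finrank ℂ E = k → ∀ (δ : ℝ) (D : ℕ) (g : E → Fin D → V), 0 < δ → Sheet R δ g →
      ∃ C a c δ' : ℝ, 0 < C ∧ 0 < a ∧ 0 < c ∧ 0 < δ' ∧ δ' ≤ δ ∧
        ∀ z ∈ ball (0 : E) δ', ∀ i, ‖H (g z i)‖ < c → ∃ z' ∈ ball (0 : E) δ, ∃ i',
          H (g z' i') = 0 ∧ ‖g z i - g z' i'‖ ≤ C * ‖H (g z i)‖ ^ a := sorry

/-- The Łojasiewicz inequality near a point. -/
theorem local_loj [FiniteDimensional ℂ V] {R : ℝ} (hR : 0 < R) {N : ℕ} {H : V → Fin N → ℂ}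
    (hH : DifferentiableOn ℂ H (ball 0 (2 * R))) (h0 : H 0 = 0) :
    ∃ C a δ : ℝ, 0 < C ∧ 0 < a ∧ 0 < δ ∧ ∀ p, ‖p‖ < δ → ∃ p', ‖p'‖ ≤ R ∧ H p' = 0 ∧
      ‖p - p'‖ ≤ C * ‖H p‖ ^ a := sorry

/-! ## P4. `Lj/Global.lean` -/

theorem isLoj {M Z : Type} [MetricSpace M] [CompactSpace M] [MetricSpace Z] {n N : ℕ}
    {κ P : Type} {e : κ → OpenPartialHomeomorph M (Cn n)} {U : P → Set Z} {q : P → Z → Cn N}
    {f : M → Z} (he : IsAtlas e) (hl : ∀ c, KRFZ.IsLip (e c) (e c).source)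
    (hU : ∀ j, IsOpen (U j)) (hc : ∀ z, ∃ j, z ∈ U j) (hq : ∀ j, KRFZ.IsLip (q j) (U j))
    (hf : Continuous f) (hh : ∀ c j, HolOn (KRFZ.fmap e q f c j) (KRFZ.fdom e U f c j)) :
    KRFZ.IsLoj f := sorry

end Pool.Agent.KRFLj
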